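import Pool.Agent.X321.MR.Rel

set_option autoImplicit false

/-! The case `p = 2` without the assumption that `-1` is a square: half rigid classes. -/

namespace Pool.Agent.X321.MR

open Module TensorProduct

variable {A F : Type} [AddCommGroup A] [Module (ZMod 2) A] [Field F] {cl : Fˣ → A}

lemma add_self_zero (a : A) : a + a = 0 := by
  have h1 : (2 : ZMod 2) • a = 0 := by
    rw [show (2 : ZMod 2) = 0 by decide, zero_smul]
  rwa [two_smul] at h1

/-- the span of the elements `a ⊗ (a + e)` -/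
def dT (e : A) : Submodule (ZMod 2) (A ⊗[ZMod 2] A) :=
  Submodule.span (ZMod 2) {t | ∃ a : A, t = a ⊗ₜ (a + e)}

lemma dT_le (hm : ∀ x y, cl (x * y) = cl x + cl y) (hs : Function.Surjective cl) :
    dT (cl (-1)) ≤ stT (ZMod 2) cl := by
  have h1 : cl 1 = 0 := by
    have := hm 1 1
    rw [mul_one] at this
    exact left_eq_add.1 this
  rw [dT, Submodule.span_le]
  rintro _ ⟨a, rfl⟩
  obtain ⟨x, rfl⟩ := hs a
  by_cases hx : x = 1
  · rw [hx, h1, TensorProduct.zero_tmul]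
    exact Submodule.zero_mem _
  have hx1 : (1 : F) - x ≠ 0 := by
    intro e
    exact hx (Units.ext (by rw [Units.val_one]; linear_combination -e))
  set y : Fˣ := Units.mk0 _ hx1 with hy
  have hyv : (y : F) = 1 - x := rfl
  have hx0 : (x : F) ≠ 0 := x.ne_zero
  have hinv : cl x⁻¹ = cl x := by
    have h2 := hm x⁻¹ x
    rw [inv_mul_cancel, h1] at h2
    have h3 := add_self_zero (cl x)
    rw [← h3] at h2
    exact (add_right_cancel h2).symm
  have h2 : cl x ⊗ₜ[ZMod 2] cl y ∈ stT (ZMod 2) cl :=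
    Submodule.subset_span ⟨x, y, by rw [hyv]; ring, rfl⟩
  have h3 : cl x⁻¹ ⊗ₜ[ZMod 2] cl ((-1) * (y * x⁻¹)) ∈ stT (ZMod 2) cl :=
    Submodule.subset_span ⟨x⁻¹, (-1) * (y * x⁻¹), by
      rw [Units.val_mul, Units.val_mul, Units.val_neg, Units.val_one, Units.val_inv_eq_inv_val,
        hyv]
      field_simp
      ring, rfl⟩
  rw [hm, hm, hinv] at h3
  have h4 := Submodule.add_mem _ h2 h3
  have h5 : cl x ⊗ₜ[ZMod 2] cl y + cl x ⊗ₜ[ZMod 2] (cl (-1) + (cl y + cl x)) =
      cl x ⊗ₜ[ZMod 2] (cl x + cl (-1)) := by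
    rw [← TensorProduct.tmul_add]
    congr 1
    have h6 := add_self_zero (cl y)
    calc cl y + (cl (-1) + (cl y + cl x)) = (cl y + cl y) + (cl x + cl (-1)) := by abel
      _ = cl x + cl (-1) := by rw [h6, zero_add]
  rwa [h5] at h4

variable [FiniteDimensional (ZMod 2) A]

/-- the dimension of the quotient by `dT` -/
lemma finrank_dT {e : A} (he : e ≠ 0) : finrank (ZMod 2) ((A ⊗[ZMod 2] A) ⧸ dT e) ≤
    finrank (ZMod 2) A + (finrank (ZMod 2) A - 1).choose 2 := by
  have hq : ∀ a : A, (dT e).mkQ (a ⊗ₜ (a + e)) = 0 := fun a =>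
    (Submodule.Quotient.mk_eq_zero _).2 (Submodule.subset_span ⟨a, rfl⟩)
  -- the image of `e ⊗ A`
  let f1 : A →ₗ[ZMod 2] ((A ⊗[ZMod 2] A) ⧸ dT e) :=
    (dT e).mkQ.comp (TensorProduct.mk (ZMod 2) A A e)
  have hf1 : ∀ a, f1 a = (dT e).mkQ (e ⊗ₜ a) := fun _ => rfl
  set Q1 := LinearMap.range f1 with hQ1
  have h1 : finrank (ZMod 2) Q1 ≤ finrank (ZMod 2) A := LinearMap.finrank_range_le f1
  have hz : ∀ z : (A ⊗[ZMod 2] A) ⧸ dT e, z + z = 0 := fun z => add_self_zero z
  -- `b ⊗ e` and `b ⊗ b`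
  have hbe : ∀ b : A, (dT e).mkQ (b ⊗ₜ e) = (dT e).mkQ (e ⊗ₜ b) := by
    intro b
    have h2 := hq (b + e)
    have h3 := hq b
    rw [show b + e + e = b by rw [add_assoc, add_self_zero, add_zero], TensorProduct.add_tmul,
      map_add] at h2
    rw [TensorProduct.tmul_add, map_add] at h3
    have h4 : (dT e).mkQ (b ⊗ₜ[ZMod 2] e) + (dT e).mkQ (e ⊗ₜ[ZMod 2] b) = 0 := by
      have h5 := hz ((dT e).mkQ (b ⊗ₜ[ZMod 2] b))
      calc _ = ((dT e).mkQ (b ⊗ₜ[ZMod 2] b) + (dT e).mkQ (b ⊗ₜ[ZMod 2] b)) +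
          ((dT e).mkQ (b ⊗ₜ[ZMod 2] e) + (dT e).mkQ (e ⊗ₜ[ZMod 2] b)) := by rw [h5, zero_add]
        _ = ((dT e).mkQ (b ⊗ₜ[ZMod 2] b) + (dT e).mkQ (b ⊗ₜ[ZMod 2] e)) +
          ((dT e).mkQ (b ⊗ₜ[ZMod 2] b) + (dT e).mkQ (e ⊗ₜ[ZMod 2] b)) := by abel
        _ = 0 := by rw [h3, h2, zero_add]
    rw [← hz ((dT e).mkQ (e ⊗ₜ[ZMod 2] b))] at h4
    exact add_right_cancel h4
  have hbb : ∀ b : A, (dT e).mkQ (b ⊗ₜ b) ∈ Q1 := by
    intro b
    have h3 := hq b
    rw [TensorProduct.tmul_add, map_add, hbe, ← hz ((dT e).mkQ (e ⊗ₜ[ZMod 2] b))] at h3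
    rw [add_right_cancel h3]
    exact ⟨b, rfl⟩
  -- a complement
  obtain ⟨B, hB⟩ := Submodule.exists_isCompl (Submodule.span (ZMod 2) {e})
  have hBr : finrank (ZMod 2) B = finrank (ZMod 2) A - 1 := by
    have h2 := Submodule.finrank_add_eq_of_isCompl hB
    rw [finrank_span_singleton he] at h2
    omega
  let C0 : A →ₗ[ZMod 2] A →ₗ[ZMod 2] (((A ⊗[ZMod 2] A) ⧸ dT e) ⧸ Q1) :=
    (TensorProduct.mk (ZMod 2) A A).compr₂ (Q1.mkQ.comp (dT e).mkQ)
  have hC0 : ∀ x y, C0 x y = Q1.mkQ ((dT e).mkQ (x ⊗ₜ y)) := fun _ _ => rfl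
  let C : B →ₗ[ZMod 2] B →ₗ[ZMod 2] (((A ⊗[ZMod 2] A) ⧸ dT e) ⧸ Q1) :=
    C0.compl₁₂ B.subtype B.subtype
  have hC : ∀ x y : B, C x y = Q1.mkQ ((dT e).mkQ ((x : A) ⊗ₜ (y : A))) := fun _ _ => rfl
  have hCa : ∀ x, C x x = 0 := fun x => (Submodule.Quotient.mk_eq_zero _).2 (hbb x)
  let g := exteriorPower.alternatingMapLinearEquiv (alt2 C hCa)
  have hg : ∀ x y : B, g (wd x y) = Q1.mkQ ((dT e).mkQ ((x : A) ⊗ₜ (y : A))) := by
    intro x y
    rw [wd, exteriorPower.alternatingMapLinearEquiv_apply_ιMulti, alt2_apply, hC]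
    rfl
  have hdec : ∀ x : A, ∃ (s : ZMod 2) (b : B), x = s • e + b := by
    intro x
    have h2 : x ∈ Submodule.span (ZMod 2) {e} ⊔ B := by
      rw [hB.sup_eq_top]
      trivial
    rw [Submodule.mem_sup] at h2
    obtain ⟨y, hy, b, hb, rfl⟩ := h2
    obtain ⟨s, rfl⟩ := Submodule.mem_span_singleton.1 hy
    exact ⟨s, ⟨b, hb⟩, rfl⟩
  have hsurj : Function.Surjective g := by
    intro z
    obtain ⟨z, rfl⟩ := Submodule.mkQ_surjective _ z
    obtain ⟨t, rfl⟩ := Submodule.mkQ_surjective _ z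
    induction t using TensorProduct.induction_on with
    | zero => exact ⟨0, by rw [map_zero, map_zero, map_zero]⟩
    | tmul x y =>
      obtain ⟨s, b, rfl⟩ := hdec x
      obtain ⟨t, b', rfl⟩ := hdec y
      refine ⟨wd b b', ?_⟩
      rw [hg]
      have h2 : (dT e).mkQ ((s • e + (b : A)) ⊗ₜ[ZMod 2] (t • e + (b' : A))) =
          s • (dT e).mkQ (e ⊗ₜ[ZMod 2] (t • e + (b' : A))) +
          (t • (dT e).mkQ (e ⊗ₜ[ZMod 2] (b : A)) + (dT e).mkQ ((b : A) ⊗ₜ[ZMod 2] (b' : A))) := by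
        rw [TensorProduct.add_tmul, map_add, ← TensorProduct.smul_tmul', map_smul]
        congr 1
        rw [TensorProduct.tmul_add, map_add, TensorProduct.tmul_smul, map_smul, hbe]
      rw [h2, map_add, map_add, map_smul, map_smul]
      have h3 : ∀ a : A, Q1.mkQ ((dT e).mkQ (e ⊗ₜ[ZMod 2] a)) = 0 := fun a =>
        (Submodule.Quotient.mk_eq_zero _).2 ⟨a, rfl⟩
      rw [h3, h3, smul_zero, smul_zero, zero_add, zero_add]
    | add x y hx hy =>
      obtain ⟨a, ha⟩ := hx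
      obtain ⟨b, hb⟩ := hy
      exact ⟨a + b, by rw [map_add, map_add, map_add, ha, hb]⟩
  have h2 : finrank (ZMod 2) (((A ⊗[ZMod 2] A) ⧸ dT e) ⧸ Q1) ≤
      finrank (ZMod 2) (⋀[ZMod 2]^2 B) := LinearMap.finrank_le_finrank_of_surjective hsurj
  rw [exteriorPower.finrank_eq, hBr] at h2
  have h3 := Q1.finrank_quotient_add_finrank
  omega

omit [FiniteDimensional (ZMod 2) A] in
/-- a linear form with prescribed values -/
lemma exists_form {e a b a' : A} (he : e ≠ 0) (ha : a ≠ 0) (hb : b ≠ 0) (hab : b ≠ a + e)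
    (h1 : a' ≠ e) (h2 : a' ≠ a) (h3 : a' ≠ b) (h4 : a' ≠ e + a + b) :
    ∃ f : Dual (ZMod 2) A, f e = 1 ∧ f a = 1 ∧ f b = 1 ∧ f a' = 0 := by
  set Z : Submodule (ZMod 2) A := Submodule.span (ZMod 2) {e + a, e + b, a'} with hZ
  have hx : ∀ x : A, x + x = 0 := add_self_zero
  have heZ : e ∉ Z := by
    intro hcon
    rw [hZ, Submodule.mem_span_triple] at hcon
    obtain ⟨r, s, t, h⟩ := hcon
    have hr : ∀ r : ZMod 2, r = 0 ∨ r = 1 := by decide
    rcases hr r with rfl | rfl <;> rcases hr s with rfl | rfl <;> rcases hr t with rfl | rfl <;>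
      simp only [zero_smul, one_smul, zero_add, add_zero] at h
    · exact he h.symm
    · exact h1 h
    · exact hb (by simpa using h)
    · apply h3
      have : a' = b + (e + b + a') + e := by
        calc a' = a' + (e + e) + (b + b) := by rw [hx, hx, add_zero, add_zero]
          _ = _ := by abel
      rw [this, h, add_assoc, hx, add_zero]
    · exact ha (by simpa using h)
    · apply h2
      have : a' = a + (e + a + a') + e := by
        calc a' = a' + (e + e) + (a + a) := by rw [hx, hx, add_zero, add_zero]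
          _ = _ := by abel
      rw [this, h, add_assoc, hx, add_zero]
    · apply hab
      have : b = a + (e + a + (e + b)) := by
        calc b = b + (e + e) + (a + a) := by rw [hx, hx, add_zero, add_zero]
          _ = _ := by abel
      rw [this, h]
    · apply h4
      have : a' = a + b + (e + a + (e + b) + a') := by
        calc a' = a' + (e + e) + (a + a) + (b + b) := by rw [hx, hx, hx, add_zero, add_zero,
              add_zero]
          _ = _ := by abel
      rw [this, h]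
      abel
  obtain ⟨f, hf, hfZ⟩ := Submodule.exists_dual_map_eq_bot_of_notMem heZ inferInstance
  have hf1 : f e = 1 := by
    have hr : ∀ r : ZMod 2, r ≠ 0 → r = 1 := by decide
    exact hr _ hf
  have hfz : ∀ z ∈ Z, f z = 0 := by
    intro z hz
    have h5 : f z ∈ Z.map f := ⟨z, hz, rfl⟩
    rw [hfZ] at h5
    exact h5
  have h11 : ∀ r : ZMod 2, 1 + r = 0 → r = 1 := by decide
  refine ⟨f, hf1, ?_, ?_, ?_⟩
  · have := hfz (e + a) (Submodule.subset_span (by simp))
    rw [map_add, hf1] at this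
    exact h11 _ this
  · have := hfz (e + b) (Submodule.subset_span (by simp))
    rw [map_add, hf1] at this
    exact h11 _ this
  · exact hfz a' (Submodule.subset_span (by simp))

omit [FiniteDimensional (ZMod 2) A] in
/-- evaluation of tensors at a linear form -/
noncomputable def ev2 (f : Dual (ZMod 2) A) : (A ⊗[ZMod 2] A) →ₗ[ZMod 2] ZMod 2 :=
  TensorProduct.lift ((LinearMap.mul (ZMod 2) (ZMod 2)).compl₁₂ f f)

omit [FiniteDimensional (ZMod 2) A] in
lemma ev2_tmul (f : Dual (ZMod 2) A) (x y : A) : ev2 f (x ⊗ₜ y) = f x * f y := by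
  rw [ev2, TensorProduct.lift.tmul]
  rfl

omit [FiniteDimensional (ZMod 2) A] in
lemma ev2_dT {f : Dual (ZMod 2) A} {e : A} (hf : f e = 1) {t : A ⊗[ZMod 2] A} (ht : t ∈ dT e) :
    ev2 f t = 0 := by
  have h1 : dT e ≤ LinearMap.ker (ev2 f) := by
    rw [dT, Submodule.span_le]
    rintro _ ⟨a, rfl⟩
    rw [SetLike.mem_coe, LinearMap.mem_ker, ev2_tmul, map_add, hf]
    have : ∀ r : ZMod 2, r * (r + 1) = 0 := by decide
    exact this _
  exact h1 ht

/-- many half rigid classes -/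
theorem many_hr (hm : ∀ x y, cl (x * y) = cl x + cl y) (hs : Function.Surjective cl)
    (he : cl (-1) ≠ 0) (hr : (finrank (ZMod 2) A - 1).choose 2 + 3 ≤
      finrank (ZMod 2) ((A ⊗[ZMod 2] A) ⧸ stT (ZMod 2) cl)) :
    3 ≤ finrank (ZMod 2) A ∧
    ∃ S : Finset A, 2 ^ finrank (ZMod 2) A < 2 * S.card ∧ ∀ a ∈ S, ∀ b : A,
      a ⊗ₜ[ZMod 2] b ∈ stT (ZMod 2) cl → b = 0 ∨ b = a + cl (-1) := by
  classical
  have hfA : Finite A := Module.finite_of_finite (ZMod 2)
  have hftA : Fintype A := Fintype.ofFinite A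
  set e := cl (-1) with hedef
  set M : Submodule (ZMod 2) ((A ⊗[ZMod 2] A) ⧸ dT e) := (stT (ZMod 2) cl).map (dT e).mkQ with hM
  have hD : dT e ≤ stT (ZMod 2) cl := dT_le hm hs
  have h1 : finrank (ZMod 2) (((A ⊗[ZMod 2] A) ⧸ dT e) ⧸ M) =
      finrank (ZMod 2) ((A ⊗[ZMod 2] A) ⧸ stT (ZMod 2) cl) :=
    (Submodule.quotientQuotientEquivQuotient (dT e) (stT (ZMod 2) cl) hD).finrank_eq
  have h2 := M.finrank_quotient_add_finrank
  have h3 := finrank_dT (A := A) he
  have hρ : finrank (ZMod 2) M + 3 ≤ finrank (ZMod 2) A := by omega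
  refine ⟨by omega, ?_⟩
  have hfQ : Finite ((A ⊗[ZMod 2] A) ⧸ dT e) := Module.finite_of_finite (ZMod 2)
  have hftQ : Fintype ((A ⊗[ZMod 2] A) ⧸ dT e) := Fintype.ofFinite _
  have hMc : Nat.card M = 2 ^ finrank (ZMod 2) M := by
    have h6 := Module.natCard_eq_pow_finrank (K := ZMod 2) (V := M)
    rwa [Nat.card_zmod] at h6
  have hAc : Fintype.card A = 2 ^ finrank (ZMod 2) A := by
    have h6 := Module.natCard_eq_pow_finrank (K := ZMod 2) (V := A)
    rwa [Nat.card_zmod, Nat.card_eq_fintype_card] at h6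
  -- the bad classes
  let P : A → Prop := fun a => ∃ b : A, a ⊗ₜ[ZMod 2] b ∈ stT (ZMod 2) cl ∧ b ≠ 0 ∧ b ≠ a + e
  let β : A → A := fun a => if h : P a then h.choose else 0
  have hβ : ∀ a, P a → a ⊗ₜ[ZMod 2] β a ∈ stT (ZMod 2) cl ∧ β a ≠ 0 ∧ β a ≠ a + e := by
    intro a ha
    have : β a = ha.choose := dif_pos ha
    rw [this]
    exact ha.choose_spec
  let N : Finset A := Finset.univ.filter fun a => a ≠ 0 ∧ P a
  let g : A → ((A ⊗[ZMod 2] A) ⧸ dT e) := fun a => (dT e).mkQ (a ⊗ₜ β a)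
  have hsum : ∀ {x y : A}, e + x + y = 0 → y = x + e := by
    intro x y h
    have h5 : y = (e + x + y) + (x + e) := by
      calc y = y + (x + x) + (e + e) := by
            rw [add_self_zero, add_self_zero, add_zero, add_zero]
        _ = _ := by abel
    rw [h5, h, zero_add]
  have hN1 : N.card ≤ 4 * (N.image g).card := by
    apply Finset.card_le_mul_card_image
    intro z hz
    rw [Finset.mem_image] at hz
    obtain ⟨a, ha, rfl⟩ := hz
    rw [Finset.mem_filter] at ha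
    obtain ⟨-, ha0, ha⟩ := ha
    obtain ⟨hb1, hb2, hb3⟩ := hβ a ha
    have hsub : (N.filter fun x => g x = g a) ⊆ {e, a, β a, e + a + β a} := by
      intro x hx
      rw [Finset.mem_filter] at hx
      obtain ⟨-, hx⟩ := hx
      by_contra hcon
      simp only [Finset.mem_insert, Finset.mem_singleton, not_or] at hcon
      obtain ⟨c1, c2, c3, c4⟩ := hcon
      obtain ⟨f, hf1, hf2, hf3, hf4⟩ := exists_form he ha0 hb2 hb3 c1 c2 c3 c4
      have h5 : (x ⊗ₜ[ZMod 2] β x - a ⊗ₜ[ZMod 2] β a) ∈ dT e := by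
        rw [← Submodule.Quotient.mk_eq_zero, Submodule.Quotient.mk_sub, sub_eq_zero]
        exact hx
      have h6 := ev2_dT hf1 h5
      rw [map_sub, ev2_tmul, ev2_tmul, hf2, hf3, hf4, zero_mul, one_mul, zero_sub] at h6
      exact one_ne_zero (neg_eq_zero.1 h6)
    exact (Finset.card_le_card hsub).trans Finset.card_le_four
  have hN2 : (N.image g).card ≤ 2 ^ finrank (ZMod 2) M - 1 := by
    have h5 : N.image g ⊆ ((M : Set _).toFinset).erase 0 := by
      intro z hz
      rw [Finset.mem_image] at hz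
      obtain ⟨a, ha, rfl⟩ := hz
      rw [Finset.mem_filter] at ha
      obtain ⟨-, ha0, ha⟩ := ha
      obtain ⟨hb1, hb2, hb3⟩ := hβ a ha
      rw [Finset.mem_erase, Set.mem_toFinset]
      refine ⟨?_, ⟨_, hb1, rfl⟩⟩
      intro h0
      have h6 : a ⊗ₜ[ZMod 2] β a ∈ dT e := (Submodule.Quotient.mk_eq_zero _).1 h0
      obtain ⟨f, hf1, hf2, hf3, -⟩ := exists_form (a' := 0) he ha0 hb2 hb3 he.symm ha0.symm
        hb2.symm (fun h => hb3 (hsum h.symm))
      have h7 := ev2_dT hf1 h6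
      rw [ev2_tmul, hf2, hf3, one_mul] at h7
      exact one_ne_zero h7
    refine (Finset.card_le_card h5).trans ?_
    rw [Finset.card_erase_of_mem (by rw [Set.mem_toFinset]; exact M.zero_mem), Set.toFinset_card,
      ← Nat.card_eq_fintype_card]
    exact le_of_eq (by rw [← hMc]; rfl)
  refine ⟨Finset.univ \ (insert 0 N), ?_, ?_⟩
  · have h5 : (insert (0 : A) N).card ≤ N.card + 1 := Finset.card_insert_le _ _
    have h6 := Finset.card_sdiff_of_subset (Finset.subset_univ (insert (0 : A) N))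
    rw [Finset.card_univ, hAc] at h6
    have h7 : (insert (0 : A) N).card ≤ (Finset.univ : Finset A).card :=
      Finset.card_le_card (Finset.subset_univ _)
    rw [Finset.card_univ, hAc] at h7
    have h8 : 2 ^ (finrank (ZMod 2) M + 3) ≤ 2 ^ finrank (ZMod 2) A :=
      Nat.pow_le_pow_right (by norm_num) hρ
    rw [pow_add] at h8
    have h9 : 0 < 2 ^ finrank (ZMod 2) M := by positivity
    rw [h6]
    omega
  · intro a ha b hb
    rw [Finset.mem_sdiff, Finset.mem_insert, not_or] at ha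
    obtain ⟨-, ha0, ha⟩ := ha
    by_contra hcon
    rw [not_or] at hcon
    apply ha
    rw [Finset.mem_filter]
    exact ⟨Finset.mem_univ _, ha0, b, hb, hcon.1, hcon.2⟩

end Pool.Agent.X321.MR
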