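import Pool.Agent.X321.MR.Rel
import Pool.Agent.X321.MQ.Fld
import Pool.Agent.Y920.EP.GalP
import Pool.Agent.Y98.EP.PCD
import Pool.Agent.Y447.EP.WB
import Pool.Agent.Y232.EP.Coarse

set_option autoImplicit false

/-! Valuation rings of fields in which all classes outside of a subspace are rigid. -/

namespace Pool.Agent.X321.MR

open Module TensorProduct

section sub

variable {p : ℕ} [Fact p.Prime] {A F : Type} [AddCommGroup A] [Module (ZMod p) A] [Field F]
  {cl : Fˣ → A}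

/-- all classes outside of a small subspace are rigid -/
theorem exists_rigid [FiniteDimensional (ZMod p) A] (h : Cls cl)
    (hr : 2 ≤ dl (stE (ZMod p) cl) ⊤) :
    ∃ W : Submodule (ZMod p) A,
      (finrank (ZMod p) W : ℤ) + (dl (stE (ZMod p) cl) ⊤ - 1) ≤ finrank (ZMod p) A ∧
      2 ≤ finrank (ZMod p) A ∧
      ∀ x y : Fˣ, (x : F) + y = 1 → cl x ∉ W → cl y = 0 ∨ cl y = cl x := by
  have hA : Finite A := Module.finite_of_finite (ZMod p)
  have hSub : Finite (Submodule (ZMod p) A) :=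
    Finite.of_injective (fun X : Submodule (ZMod p) A => (X : Set A)) SetLike.coe_injective
  have hd : (2 : ℤ) ≤ finrank (ZMod p) A ∧
      dl (stE (ZMod p) cl) ⊤ ≤ (finrank (ZMod p) A : ℤ) := by
    unfold dl at hr ⊢
    rw [finrank_top] at hr ⊢
    omega
  by_cases hfree : ∃ x y, St cl x y ∧ Fr (ZMod p) x y
  · have hS : ∀ x y, St cl x y → wd x y ∈ stE (ZMod p) cl := by
      rintro x y ⟨a, b, hab, rfl, rfl⟩
      exact Submodule.subset_span ⟨a, b, hab, rfl⟩
    obtain ⟨W, hW, -, hW'⟩ := exists_sub h hS hfree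
    obtain ⟨x, y, hxy, hf⟩ := hfree
    have h3 := hW _ ⟨x, y, hxy, hf,
      (le_sup_left : Submodule.span (ZMod p) {x} ≤ _) (Submodule.mem_span_singleton_self x),
      (le_sup_right : Submodule.span (ZMod p) {y} ≤ _) (Submodule.mem_span_singleton_self y)⟩
    have h4 := h3.trans (dl_plane hf (hS _ _ hxy))
    have h5 : finrank (ZMod p) ↥(stE (ZMod p) cl ⊓ into W) ≤
        finrank (ZMod p) ↥(stE (ZMod p) cl ⊓ into ⊤) :=
      Submodule.finrank_mono (inf_le_inf_left _ (into_mono le_top))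
    refine ⟨W, ?_, by omega, hW'⟩
    unfold dl at h4 ⊢
    rw [finrank_top]
    omega
  · push Not at hfree
    obtain ⟨W, hW, hW'⟩ := exists_sub_noFree h hfree
    exact ⟨W, by omega, by omega, hW'⟩

/-- all classes outside of a proper subspace are rigid -/
theorem exists_rigid' [FiniteDimensional (ZMod p) A] (h : Cls cl)
    (hX : ∃ X : Submodule (ZMod p) A, (∃ x y, St cl x y ∧ Fr (ZMod p) x y ∧ x ∈ X ∧ y ∈ X) ∧
      dl (stE (ZMod p) cl) X < dl (stE (ZMod p) cl) ⊤) :
    ∃ W : Submodule (ZMod p) A, finrank (ZMod p) W < finrank (ZMod p) A ∧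
      2 ≤ finrank (ZMod p) A ∧
      ∀ x y : Fˣ, (x : F) + y = 1 → cl x ∉ W → cl y = 0 ∨ cl y = cl x := by
  have hA : Finite A := Module.finite_of_finite (ZMod p)
  have hSub : Finite (Submodule (ZMod p) A) :=
    Finite.of_injective (fun X : Submodule (ZMod p) A => (X : Set A)) SetLike.coe_injective
  have hS : ∀ x y, St cl x y → wd x y ∈ stE (ZMod p) cl := by
    rintro x y ⟨a, b, hab, rfl, rfl⟩
    exact Submodule.subset_span ⟨a, b, hab, rfl⟩
  obtain ⟨X, ⟨x, y, hxy, hf, hx, hy⟩, hlt⟩ := hX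
  obtain ⟨W, hW, -, hW'⟩ := exists_sub h hS ⟨x, y, hxy, hf⟩
  refine ⟨W, Submodule.finrank_lt ?_, two_le hf, hW'⟩
  intro e
  have h1 := hW X ⟨x, y, hxy, hf, hx, hy⟩
  rw [e] at h1
  omega

variable (p) in
/-- the subgroup of `F*` given by a subspace -/
def sgp (h : Cls cl) (W : Submodule (ZMod p) A) : Subgroup Fˣ where
  carrier := {x | cl x ∈ W}
  mul_mem' {x y} hx hy := by
    change cl (x * y) ∈ W
    rw [h.mul]
    exact W.add_mem hx hy
  one_mem' := by
    change cl 1 ∈ W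
    rw [h.one]
    exact W.zero_mem
  inv_mem' {x} hx := by
    change cl x⁻¹ ∈ W
    rw [h.inv]
    exact W.neg_mem hx

lemma mem_sgp (h : Cls cl) (W : Submodule (ZMod p) A) (x : Fˣ) : x ∈ sgp p h W ↔ cl x ∈ W :=
  Iff.rfl

/-- the index of the subgroup given by a subspace -/
lemma index_sgp (h : Cls cl) (hs : Function.Surjective cl) [FiniteDimensional (ZMod p) A]
    (W : Submodule (ZMod p) A) :
    (sgp p h W).index = p ^ (finrank (ZMod p) A - finrank (ZMod p) W) := by
  let f : Fˣ →* Multiplicative (A ⧸ W) :=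
    { toFun := fun x => Multiplicative.ofAdd (W.mkQ (cl x))
      map_one' := by rw [h.one, map_zero]; rfl
      map_mul' := fun x y => by rw [h.mul, map_add]; rfl }
  have hf : f.ker = sgp p h W := by
    ext x
    rw [MonoidHom.mem_ker, mem_sgp]
    exact Submodule.Quotient.mk_eq_zero W
  have hfs : Function.Surjective f := by
    intro z
    obtain ⟨a, ha⟩ := Submodule.mkQ_surjective W (Multiplicative.toAdd z)
    obtain ⟨x, rfl⟩ := hs a
    exact ⟨x, by change Multiplicative.ofAdd (W.mkQ (cl x)) = z; rw [ha]; rfl⟩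
  have h1 := Subgroup.index_ker f
  rw [hf, MonoidHom.range_eq_top.2 hfs] at h1
  rw [h1]
  have h2 : Nat.card (⊤ : Subgroup (Multiplicative (A ⧸ W))) = Nat.card (A ⧸ W) := by
    rw [Subgroup.card_top]
    rfl
  rw [h2, Module.natCard_eq_pow_finrank (K := ZMod p), Nat.card_zmod]
  have h3 := W.finrank_quotient_add_finrank
  congr 1
  omega

/-- the subspace given by a subgroup of `F*` -/
def sub_of (h : Cls cl) (U : Subgroup Fˣ) : Submodule (ZMod p) A where
  carrier := {a | ∃ u ∈ U, cl u = a}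
  add_mem' := by
    rintro _ _ ⟨u, hu, rfl⟩ ⟨v, hv, rfl⟩
    exact ⟨u * v, U.mul_mem hu hv, h.mul u v⟩
  zero_mem' := ⟨1, U.one_mem, h.one⟩
  smul_mem' := by
    rintro c _ ⟨u, hu, rfl⟩
    refine ⟨u ^ c.val, U.pow_mem hu _, ?_⟩
    rw [cl_pow (K := ZMod p) h, ZMod.natCast_zmod_val]

/-- the converse: fields with a valuation -/
theorem exists_X [FiniteDimensional (ZMod p) A] (h : Cls cl)
    (hk : ∀ x : Fˣ, cl x = 0 ↔ ∃ y : Fˣ, x = y ^ p)
    (hfree : ∃ x y, St cl x y ∧ Fr (ZMod p) x y) (O : ValuationSubring F)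
    (hO : ∀ x : F, x ∈ O → x⁻¹ ∉ O → ∃ y : F, y ^ p = 1 + x) (c : Fˣ)
    (hc : ∀ u f : Fˣ, u ∈ O.unitGroup → c ≠ u * f ^ p) :
    ∃ X : Submodule (ZMod p) A, (∃ x y, St cl x y ∧ Fr (ZMod p) x y ∧ x ∈ X ∧ y ∈ X) ∧
      dl (stE (ZMod p) cl) X < dl (stE (ZMod p) cl) ⊤ := by
  -- one-units
  have hone : ∀ x y : Fˣ, (x : F) + y = 1 → (x : F) ∈ O → (x : F)⁻¹ ∉ O → cl y = 0 := by
    intro x y hxy h1 h2
    obtain ⟨z, hz⟩ := hO (-(x : F)) (O.neg_mem _ h1) (by
      intro h3
      apply h2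
      have := O.neg_mem _ h3
      rwa [← inv_neg, neg_neg] at this)
    have hz0 : z ≠ 0 := by
      rintro rfl
      rw [zero_pow (Fact.out : p.Prime).ne_zero] at hz
      exact y.ne_zero (by linear_combination hxy + -hz)
    rw [hk]
    exact ⟨Units.mk0 z hz0, Units.ext (by
      rw [Units.val_pow_eq_pow_val, Units.val_mk0, hz]
      linear_combination hxy)⟩
  have hunit : ∀ x y : Fˣ, (x : F) + y = 1 → Fr (ZMod p) (cl x) (cl y) → x ∈ O.unitGroup := by
    intro x y hxy hf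
    have hx0 : (x : F) ≠ 0 := x.ne_zero
    have h1 : (x : F) ∈ O := by
      by_contra h2
      have h3 : ((x⁻¹ : Fˣ) : F) ∈ O := by
        rw [Units.val_inv_eq_inv_val]
        exact (O.mem_or_inv_mem _).resolve_left h2
      have h4 := hone x⁻¹ (-(y / x)) (by
        rw [Units.val_neg, Units.val_div_eq_div_val, Units.val_inv_eq_inv_val]
        field_simp
        linear_combination -hxy) h3 (by rwa [Units.val_inv_eq_inv_val, inv_inv])
      rw [h.neg', h.div, sub_eq_zero] at h4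
      rw [h4] at hf
      exact one_ne_zero (hf 1 (-1) (by module)).1
    have h2 : (x : F)⁻¹ ∈ O := by
      by_contra h2
      exact hf.symm.ne (hone x y hxy h1 h2)
    rw [ValuationSubring.mem_unitGroup_iff]
    apply le_antisymm
    · exact (ValuationSubring.valuation_le_one_iff _ _).2 h1
    · have h3 := (ValuationSubring.valuation_le_one_iff O _).2 h2
      rw [map_inv₀] at h3
      have h4 : O.valuation (x : F) ≠ 0 := (Valuation.ne_zero_iff _).2 hx0
      exact (inv_le_one₀ (zero_lt_iff.2 h4)).1 h3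
  set X : Submodule (ZMod p) A := sub_of h O.unitGroup with hX
  have hall : ∀ x y, St cl x y → Fr (ZMod p) x y → x ∈ X ∧ y ∈ X := by
    rintro _ _ ⟨x, y, hxy, rfl, rfl⟩ hf
    exact ⟨⟨x, hunit x y hxy hf, rfl⟩, ⟨y, hunit y x (by rw [add_comm]; exact hxy) hf.symm, rfl⟩⟩
  obtain ⟨x0, y0, h0, hf0⟩ := hfree
  refine ⟨X, ⟨x0, y0, h0, hf0, hall _ _ h0 hf0⟩, ?_⟩
  have hR : stE (ZMod p) cl ≤ into X := by
    rw [stE, Submodule.span_le]
    rintro _ ⟨x, y, hxy, rfl⟩
    by_cases hf : Fr (ZMod p) (cl x) (cl y)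
    · obtain ⟨h1, h2⟩ := hall _ _ ⟨x, y, hxy, rfl, rfl⟩ hf
      exact wd_mem h1 h2
    · have h1 : (wd (cl x) (cl y) : ⋀[ZMod p]^2 A) = 0 := by
        by_cases hx : cl x = 0
        · rw [hx]
          have := wd_smul_left (0 : ZMod p) (0 : A) (cl y)
          rwa [zero_smul, zero_smul] at this
        · have h2 : cl y ∈ Submodule.span (ZMod p) {cl x} := by
            by_contra h2
            exact hf (fr_of hx h2)
          obtain ⟨a, ha⟩ := Submodule.mem_span_singleton.1 h2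
          rw [← ha, wd_smul_right, wd_self, smul_zero]
      rw [h1]
      exact Submodule.zero_mem _
  have hlt : finrank (ZMod p) X < finrank (ZMod p) A := by
    apply Submodule.finrank_lt
    intro e
    have h1 : cl c ∈ X := by
      rw [e]
      trivial
    obtain ⟨u, hu, hcu⟩ := h1
    have h2 : cl (c / u) = 0 := by rw [h.div, hcu, sub_self]
    rw [hk] at h2
    obtain ⟨f, hf⟩ := h2
    exact hc u f hu (by rw [← hf, mul_div_cancel])
  unfold dl
  rw [inf_eq_left.2 hR, inf_eq_left.2 (hR.trans (into_mono le_top)), finrank_top]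
  omega

end sub

section odd

variable {p : ℕ} [Fact p.Prime] {A F : Type} [AddCommGroup A] [Module (ZMod p) A] [Field F]
  {cl : Fˣ → A}

open Pool.Agent.Y920.EP in
/-- the valuation ring for `p` odd -/
theorem odd_part (hp2 : p ≠ 2) (hpF : (p : F) ≠ 0) (h : Cls cl)
    (hk : ∀ x : Fˣ, cl x = 0 ↔ ∃ y : Fˣ, x = y ^ p) (W : Submodule (ZMod p) A)
    (hW : ∀ x y : Fˣ, (x : F) + y = 1 → cl x ∉ W → cl y = 0 ∨ cl y = cl x) :
    ∃ O : ValuationSubring F, Pw p O ∧ O.unitGroup ≤ sgp p h W ∧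
      ∀ u : Fˣ, (u : F) ∈ O → ((u⁻¹ : Fˣ) : F) ∈ O → cl u ∈ W := by
  have hp : p.Prime := Fact.out
  have hT : ∀ x : Fˣ, x ∈ pwG F p ↔ cl x = 0 := fun x => by
    rw [hk, pwG, MonoidHom.mem_range]
    constructor
    · rintro ⟨b, rfl⟩; exact ⟨b, rfl⟩
    · rintro ⟨b, rfl⟩; exact ⟨b, rfl⟩
  have hRP : RP (pwG F p) (sgp p h W) := by
    refine ⟨?_, ?_, ?_⟩
    · intro x hx
      rw [hT] at hx
      rw [mem_sgp, hx]
      exact W.zero_mem
    · rw [mem_sgp, h.neg]
      exact W.zero_mem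
    · intro x hx
      rw [mem_sgp] at hx
      have hne : (1 : F) + x ≠ 0 := by
        intro e
        apply hx
        have : x = -1 := Units.ext (by
          rw [Units.val_neg, Units.val_one]
          linear_combination e)
        rw [this, h.neg]
        exact W.zero_mem
      set s : Fˣ := Units.mk0 _ hne with hs
      have hsv : (s : F) = 1 + x := rfl
      rcases hW (-x) s (by rw [Units.val_neg, hsv]; ring) (by rwa [h.neg']) with h1 | h1
      · exact Or.inl ⟨s, (hT s).2 h1, hsv⟩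
      · refine Or.inr ⟨s / x, (hT _).2 ?_, ?_⟩
        · rw [h.div, h1, h.neg', sub_self]
        · rw [mul_div_cancel, hsv]
  have hsq : ∀ x : Fˣ, x * x ∈ sgp p h W → x ∈ sgp p h W := by
    intro x hx
    rw [mem_sgp, h.mul] at hx
    rw [mem_sgp]
    have h2 : (2 : ZMod p) ≠ 0 := by
      intro e
      have h3 : ((2 : ℕ) : ZMod p) = 0 := by exact_mod_cast e
      rw [ZMod.natCast_eq_zero_iff] at h3
      exact hp2 ((Nat.prime_dvd_prime_iff_eq hp Nat.prime_two).1 h3)
    have h3 := W.smul_mem (2 : ZMod p)⁻¹ hx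
    rwa [← two_smul (ZMod p), inv_smul_smul₀ h2] at h3
  have hP := Pool.Agent.Y98.EP.t_PCD F _ _ hRP hsq
  obtain ⟨O, hO⟩ := Pool.Agent.Y447.EP.t_WB' F _ _ hRP hP
  obtain ⟨O', -, hpO, hO'⟩ := Pool.Agent.Y232.EP.t_COARSE' F p hp hpF (pwG F p) (sgp p h W)
    (fun x => by rw [hT, hk]) hRP.le O hO
  refine ⟨O', ⟨hpO, hpF, ?_⟩, ?_, hO'.units⟩
  · intro x hx hx'
    obtain ⟨t, ht, e⟩ := hO'.one x hx hx'
    rw [hT, hk] at ht
    obtain ⟨b, rfl⟩ := ht
    exact ⟨b, by rw [← e, Units.val_pow_eq_pow_val]⟩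
  · intro u hu
    refine hO'.units u ?_ ?_
    · rw [← ValuationSubring.valuation_le_one_iff]
      exact le_of_eq hu
    · rw [← ValuationSubring.valuation_le_one_iff]
      exact le_of_eq (inv_mem hu : u⁻¹ ∈ O'.unitGroup)

end odd

section two

open Pool.Agent.H315R3.ETC Pool.Agent.TH188.ET Pool.Agent.Y920.ETC Pool.Agent.X321.MQ

variable {A F : Type} [AddCommGroup A] [Module (ZMod 2) A] [Field F] {cl : Fˣ → A}

/-- the valuation ring for `p = 2` -/
theorem two_part (h2 : (2 : F) ≠ 0) (hsq : IsSquare (-1 : F)) (hF : FinSq F)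
    (h4 : 4 ≤ (sqG F).index) (h : Cls cl)
    (hk' : ∀ x : Fˣ, cl x = 0 ↔ ∃ y : Fˣ, x = y ^ 2) (W : Submodule (ZMod 2) A)
    (hW : ∀ x y : Fˣ, (x : F) + y = 1 → cl x ∉ W → cl y = 0 ∨ cl y = cl x)
    (c : Fˣ) (hcW : cl c ∉ W) :
    ∃ O : ValuationSubring F, Sqr O ∧
      ∃ c : Fˣ, ∀ f : Fˣ, ¬ (((c * f ^ 2 : Fˣ) : F) ∈ O ∧ (((c * f ^ 2)⁻¹ : Fˣ) : F) ∈ O) := by
  obtain ⟨S, hS, hSf, hSq⟩ := exists_structure h2 hF
  obtain ⟨φ, hs, hk, hn, h0, hq⟩ := hS
  obtain ⟨B, hB⟩ := Pool.Agent.Y67.ET.t_BASIC S hSq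
  have hcard : Nat.card S.G = (sqG F).index := card_eq hs hk
  have hneg1 : S.neg = 1 := by
    obtain ⟨r, hr⟩ := hsq
    have hr0 : r ≠ 0 := by
      rintro rfl
      rw [mul_zero, neg_eq_zero] at hr
      exact one_ne_zero hr
    rw [← hn, hk]
    refine ⟨Units.mk0 r hr0, ?_⟩
    apply Units.ext
    rw [Units.val_neg, Units.val_one, Units.val_pow_eq_pow_val, Units.val_mk0, hr, pow_two]
  have hc1 : φ c ≠ 1 := by
    intro e
    rw [hk, ← hk'] at e
    exact hcW (e ▸ W.zero_mem)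
  have hHr : Hr S (φ c) := by
    intro e he
    obtain ⟨e, rfl⟩ := hs e
    rw [q_zero h0 hq h2] at he
    obtain ⟨y, z, hyz⟩ := he
    rw [hneg1, one_mul]
    by_cases hz : z = 0
    · left
      rw [hz] at hyz
      have hy : y ≠ 0 := by
        rintro rfl
        exact e.ne_zero (by rw [hyz]; ring)
      rw [hk]
      exact ⟨Units.mk0 y hy, Units.ext (by
        rw [Units.val_pow_eq_pow_val, Units.val_mk0, hyz]; ring)⟩
    by_cases hy : y = 0
    · right
      have h5 : φ (e / -c) = 1 := by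
        rw [hk]
        refine ⟨Units.mk0 z hz, Units.ext ?_⟩
        rw [Units.val_div_eq_div_val, Units.val_neg, Units.val_pow_eq_pow_val, Units.val_mk0, hyz,
          hy]
        have := c.ne_zero
        field_simp
        ring
      rw [map_div, div_eq_one] at h5
      rw [h5, ← neg_one_mul, map_mul, hn, hneg1, one_mul]
    set t : Fˣ := Units.mk0 (z / y) (div_ne_zero hz hy) with ht
    have htv : (t : F) = z / y := rfl
    set y' : Fˣ := Units.mk0 y hy with hy'
    have hy'v : (y' : F) = y := rfl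
    have h5 : cl (c * t ^ 2) = cl c := by
      rw [h.mul, (hk' _).2 ⟨t, rfl⟩, add_zero]
    have h6 : ((c * t ^ 2 : Fˣ) : F) + ((e / y' ^ 2 : Fˣ) : F) = 1 := by
      rw [Units.val_mul, Units.val_div_eq_div_val, Units.val_pow_eq_pow_val,
        Units.val_pow_eq_pow_val, htv, hy'v, hyz]
      field_simp
      ring
    have h7 : cl (e / y' ^ 2) = cl e := by
      rw [h.div, (hk' _).2 ⟨y', rfl⟩, sub_zero]
    rcases hW _ _ h6 (by rwa [h5]) with h8 | h8
    · left
      rw [h7, hk', ← hk] at h8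
      exact h8
    · right
      rw [h7, h5] at h8
      have h9 : cl (e / c) = 0 := by rw [h.div, h8, sub_self]
      rw [hk', ← hk, map_div, div_eq_one] at h9
      exact h9
  have hbi : ∃ a : S.G, Bi S a :=
    ⟨φ c, hc1, by rw [hneg1]; exact hc1, hHr, by rw [hneg1, one_mul]; exact hHr⟩
  refine exists_val' hs hk hn h0 hq hSq h2 B hB hbi ?_
  intro hc
  by_contra hcon
  push Not at hcon
  have h1 : (B : Set S.G) ⊆ (({1} : Finset S.G) : Set S.G) := by
    intro b hb
    by_cases hb1 : b = 1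
    · simp [hb1]
    · simp [hcon b hb hb1, hneg1]
  have h5 := Set.ncard_le_ncard h1 (Set.toFinite _)
  rw [Set.ncard_coe_finset, Finset.card_singleton] at h5
  have h3 : (B : Set S.G).ncard = Nat.card B := rfl
  rw [h3] at h5
  omega

end two

end Pool.Agent.X321.MR
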