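import Pool.Agent.X321.MR.Chain

set_option autoImplicit false

/-! Steinberg pairs in fields with few relations. -/

namespace Pool.Agent.X321.MR

open Module

variable {K A F : Type} [Field K] [AddCommGroup A] [Module K A] [Field F]

/-- a homomorphism from `F*` to an additive group which is trivial on `-1` -/
structure Cls (cl : Fˣ → A) : Prop where
  mul : ∀ x y, cl (x * y) = cl x + cl y
  neg : cl (-1) = 0

/-- the pairs of classes of `r, s` with `r + s = 1` -/
def St (cl : Fˣ → A) (x y : A) : Prop := ∃ r s : Fˣ, (r : F) + s = 1 ∧ cl r = x ∧ cl s = y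

variable {cl : Fˣ → A}

omit [Field K] [Module K A] in
lemma St.symm (x y : A) (h : St cl x y) : St cl y x := by
  obtain ⟨r, s, h1, h2, h3⟩ := h
  exact ⟨s, r, by rw [add_comm]; exact h1, h3, h2⟩

namespace Cls

variable (h : Cls cl)
include h

omit [Field K] [Module K A] in
lemma one : cl 1 = 0 := by
  have := h.mul 1 1
  rw [mul_one] at this
  exact left_eq_add.1 this

omit [Field K] [Module K A] in
lemma inv (x : Fˣ) : cl x⁻¹ = -cl x := by
  have := h.mul x⁻¹ x
  rw [inv_mul_cancel, h.one] at this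
  exact eq_neg_of_add_eq_zero_left this.symm

omit [Field K] [Module K A] in
lemma div (x y : Fˣ) : cl (x / y) = cl x - cl y := by
  rw [div_eq_mul_inv, h.mul, h.inv, sub_eq_add_neg]

omit [Field K] [Module K A] in
lemma neg' (x : Fˣ) : cl (-x) = cl x := by
  rw [← neg_one_mul, h.mul, h.neg, zero_add]

end Cls

/-- an element of `W` is much larger than an element of the other plane -/
lemma claimC (h : Cls cl) {W V P : Submodule K A} (hWV : W ≤ V)
    (hG : ∀ w ∈ W, w ≠ 0 → ∀ q ∈ P, w + q ∉ V →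
      ∀ y, St cl (w + q) y → y ∈ Submodule.span K {w + q})
    (hD : ∀ z ∈ W, z ∈ P → z = 0) {r1 s1 r s : Fˣ} (h1 : (r1 : F) + s1 = 1)
    (h2 : (r : F) + s = 1) (hr1 : cl r1 ∈ W) (hs1 : cl s1 ∈ W) (hf1 : Fr K (cl r1) (cl s1))
    (hf : Fr K (cl r) (cl s)) (hr : cl r ∈ P) (hs : cl s ∈ P) (hrV : cl r ∉ V) {t : Fˣ}
    (ht : (t : F) = r - r1) : cl t = cl r1 := by
  have hr0 : (r : F) ≠ 0 := r.ne_zero
  have hs10 : (s1 : F) ≠ 0 := s1.ne_zero
  have h3 := hG (cl r1) hr1 hf1.ne (-cl r) (P.neg_mem hr) (fun hc => hrV (by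
    have := V.sub_mem (hWV hr1) hc
    rwa [sub_add_cancel_left, neg_neg] at this)) (cl (t / r)) ⟨r1 / r, t / r, by
      rw [Units.val_div_eq_div_val, Units.val_div_eq_div_val, ht]
      field_simp
      ring, by rw [h.div, sub_eq_add_neg], rfl⟩
  obtain ⟨j, hj⟩ := Submodule.mem_span_singleton.1 h3
  rw [h.div] at hj
  by_cases hj1 : j = 1
  · rw [hj1, one_smul] at hj
    have : cl t = cl r + (cl r1 + -cl r) := by rw [hj]; abel
    rw [this]
    abel
  exfalso
  have h4 : cl t = (1 - j) • cl r + j • cl r1 := by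
    have : cl t = cl r + j • (cl r1 + -cl r) := by rw [hj]; abel
    rw [this]
    module
  have h5 : j • cl r1 - cl s1 ≠ 0 := by
    intro e
    have := (hf1 j (-1) (by rw [← e]; module)).2
    exact one_ne_zero (neg_eq_zero.1 this)
  have h6 : (1 - j) • cl r ∉ V := by
    intro hc
    apply hrV
    have := V.smul_mem (1 - j)⁻¹ hc
    rwa [inv_smul_smul₀ (sub_ne_zero.2 (Ne.symm hj1))] at this
  have hw : j • cl r1 - cl s1 ∈ W := W.sub_mem (W.smul_mem _ hr1) hs1
  have h7 := hG _ hw h5 ((1 - j) • cl r) (P.smul_mem _ hr) (fun hc => h6 (by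
    have := V.sub_mem hc (hWV hw)
    rwa [add_sub_cancel_left] at this)) (cl (s / s1)) ⟨t / s1, s / s1, by
      rw [Units.val_div_eq_div_val, Units.val_div_eq_div_val, ht]
      field_simp
      linear_combination h2 - h1, by rw [h.div, h4]; abel, rfl⟩
  obtain ⟨i, hi⟩ := Submodule.mem_span_singleton.1 h7
  rw [h.div] at hi
  have h8 : cl s - (i * (1 - j)) • cl r = cl s1 + i • (j • cl r1 - cl s1) := by
    have : cl s = cl s1 + i • (j • cl r1 - cl s1 + (1 - j) • cl r) := by rw [hi]; abel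
    rw [this]
    module
  have h9 : cl s - (i * (1 - j)) • cl r = 0 := by
    apply hD
    · rw [h8]
      exact W.add_mem hs1 (W.smul_mem _ hw)
    · exact P.sub_mem hs (P.smul_mem _ hr)
  have := (hf (-(i * (1 - j))) 1 (by rw [← h9]; module)).2
  exact one_ne_zero this

/-- there are no Steinberg planes outside of `W` -/
lemma noPlane (h : Cls cl) {W V P : Submodule K A} (hWV : W ≤ V)
    (hG : ∀ w ∈ W, w ≠ 0 → ∀ q ∈ P, w + q ∉ V →
      ∀ y, St cl (w + q) y → y ∈ Submodule.span K {w + q})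
    (hD : ∀ z ∈ W, z ∈ P → z = 0) {r1 s1 r s : Fˣ} (h1 : (r1 : F) + s1 = 1)
    (h2 : (r : F) + s = 1) (hr1 : cl r1 ∈ W) (hs1 : cl s1 ∈ W) (hf1 : Fr K (cl r1) (cl s1))
    (hf : Fr K (cl r) (cl s)) (hr : cl r ∈ P) (hs : cl s ∈ P) (hrV : cl r ∉ V) : False := by
  have hr0 : (r : F) ≠ 0 := r.ne_zero
  have hr10 : (r1 : F) ≠ 0 := r1.ne_zero
  have hne : (r : F) * r1 - 1 ≠ 0 := by
    intro e
    apply hrV
    have h3 : r * r1 = 1 := Units.ext (by rw [Units.val_mul, Units.val_one]; linear_combination e)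
    have h4 := h.mul r r1
    rw [h3, h.one] at h4
    have h5 : cl r = -cl r1 := eq_neg_of_add_eq_zero_left h4.symm
    rw [h5]
    exact V.neg_mem (hWV hr1)
  set z := Units.mk0 _ hne with hz
  have hzv : (z : F) = r * r1 - 1 := rfl
  -- the pair `1 / r1, - s1 / r1`
  have h3 := claimC h hWV hG hD (r1 := r1⁻¹) (s1 := -(s1 / r1)) (r := r) (s := s) (t := z / r1)
    (by
      rw [Units.val_neg, Units.val_div_eq_div_val, Units.val_inv_eq_inv_val]
      field_simp
      linear_combination -h1) h2 (by rw [h.inv]; exact W.neg_mem hr1)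
    (by rw [h.neg', h.div]; exact W.sub_mem hs1 hr1)
    (by
      rw [h.neg', h.div, h.inv]
      have := hf1.comb (a := -1) (b := 0) (c := -1) (d := 1) (by simp)
      rwa [show (-1 : K) • cl r1 + (0 : K) • cl s1 = -cl r1 by module,
        show (-1 : K) • cl r1 + (1 : K) • cl s1 = cl s1 - cl r1 by module] at this)
    hf hr hs hrV (by
      rw [Units.val_div_eq_div_val, Units.val_inv_eq_inv_val, hzv]
      field_simp)
  -- the pair `1 / r, - s / r`
  have h4 := claimC h hWV hG hD (r1 := r1) (s1 := s1) (r := r⁻¹) (s := -(s / r)) (t := -(z / r))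
    h1 (by
      rw [Units.val_neg, Units.val_div_eq_div_val, Units.val_inv_eq_inv_val]
      field_simp
      linear_combination -h2) hr1 hs1 hf1
    (by
      rw [h.neg', h.div, h.inv]
      have := hf.comb (a := -1) (b := 0) (c := -1) (d := 1) (by simp)
      rwa [show (-1 : K) • cl r + (0 : K) • cl s = -cl r by module,
        show (-1 : K) • cl r + (1 : K) • cl s = cl s - cl r by module] at this)
    (by rw [h.inv]; exact P.neg_mem hr) (by rw [h.neg', h.div]; exact P.sub_mem hs hr)
    (by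
      rw [h.inv]
      intro hc
      exact hrV (by simpa using V.neg_mem hc))
    (by
      rw [Units.val_neg, Units.val_div_eq_div_val, Units.val_inv_eq_inv_val, hzv]
      field_simp
      ring)
  rw [h.div, h.inv] at h3
  rw [h.neg', h.div] at h4
  apply hrV
  have h5 : cl z = 0 := by
    have : cl z = (cl z - cl r1) + cl r1 := by abel
    rw [this, h3]
    abel
  rw [h5, zero_sub] at h4
  have h6 : cl r = -cl r1 := by rw [← h4, neg_neg]
  rw [h6]
  exact V.neg_mem (hWV hr1)

variable [FiniteDimensional K A] {R : Submodule K (⋀[K]^2 A)}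

/-- rigidity outside of `W` -/
lemma rigid_out (h : Cls cl) (hS : ∀ x y, St cl x y → wd x y ∈ R) {W : Submodule K A}
    (hW : ∀ X, W < X → dl R W + 1 ≤ dl R X)
    (hall : ∀ x y, St cl x y → Fr K x y → x ∈ W ∧ y ∈ W) {r s : Fˣ} (h1 : (r : F) + s = 1)
    (hf : Fr K (cl r) (cl s)) {w y : Fˣ} (h2 : (w : F) + y = 1) (hw : cl w ∉ W) :
    cl y = 0 ∨ cl y = cl w := by
  obtain ⟨hr, hs⟩ := hall _ _ ⟨r, s, h1, rfl, rfl⟩ hf
  have hr0 : (r : F) ≠ 0 := r.ne_zero
  have hs0 : (s : F) ≠ 0 := s.ne_zero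
  -- elements outside of `W`
  have hout : ∀ x y : Fˣ, (x : F) + y = 1 → cl x ∉ W → ∃ i : K, cl y = i • cl x := by
    intro x y hxy hx
    by_contra hc
    have hx0 : cl x ≠ 0 := fun e => hx (e ▸ W.zero_mem)
    have h3 : cl y ∉ Submodule.span K {cl x} := by
      intro h4
      obtain ⟨i, hi⟩ := Submodule.mem_span_singleton.1 h4
      exact hc ⟨i, hi.symm⟩
    exact hx (hall _ _ ⟨x, y, hxy, rfl, rfl⟩ (fr_of hx0 h3)).1
  obtain ⟨i, hi⟩ := hout w y h2 hw
  have hne : (r : F) - w ≠ 0 := by
    intro e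
    apply hw
    have : r = w := Units.ext (by linear_combination e)
    rw [← this]
    exact hr
  set t := Units.mk0 _ hne with ht
  have htv : (t : F) = r - w := rfl
  obtain ⟨j, hj⟩ := hout (w / r) (t / r) (by
    rw [Units.val_div_eq_div_val, Units.val_div_eq_div_val, htv]
    field_simp
    ring) (by
      rw [h.div]
      intro hc
      exact hw (by have := W.add_mem hc hr; rwa [sub_add_cancel] at this))
  rw [h.div, h.div] at hj
  have hclt : cl t = (1 - j) • cl r + j • cl w := by
    have : cl t = j • (cl w - cl r) + cl r := by rw [← hj]; abel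
    rw [this]
    module
  have hst : ((-(t / s) : Fˣ) : F) + (y / s : Fˣ) = 1 := by
    rw [Units.val_neg, Units.val_div_eq_div_val, Units.val_div_eq_div_val, htv]
    field_simp
    linear_combination h2 - h1
  by_cases hj0 : j = 0
  · left
    have h3 := hS _ _ ⟨_, _, hst, rfl, rfl⟩
    rw [h.neg', h.div, h.div, hclt, hj0, hi] at h3
    have h4 : (1 - (0 : K)) • cl r + (0 : K) • cl w - cl s = cl r - cl s := by module
    rw [h4] at h3
    have h5 : cl r - cl s ≠ 0 := by
      intro e
      have := (hf 1 (-1) (by rw [← e]; module)).1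
      exact one_ne_zero this
    have h6 := claim1 hW (W.sub_mem hr hs) h5 h3
    have h7 : i • cl w ∈ W := by
      have := W.add_mem h6 hs
      rwa [sub_add_cancel] at this
    by_cases hi0 : i = 0
    · rw [hi, hi0, zero_smul]
    · exfalso
      apply hw
      have := W.smul_mem i⁻¹ h7
      rwa [inv_smul_smul₀ hi0] at this
  · right
    obtain ⟨k, hk⟩ := hout _ _ hst (by
      rw [h.neg', h.div, hclt]
      intro hc
      apply hw
      have h3 : j • cl w ∈ W := by
        have h4 : j • cl w = ((1 - j) • cl r + j • cl w - cl s) - (1 - j) • cl r + cl s := by abel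
        rw [h4]
        exact W.add_mem (W.sub_mem hc (W.smul_mem _ hr)) hs
      have := W.smul_mem j⁻¹ h3
      rwa [inv_smul_smul₀ hj0] at this)
    rw [h.neg', h.div, h.div, hclt, hi] at hk
    have h3 : (i - k * j) • cl w = (k * (1 - j)) • cl r + (1 - k) • cl s := by
      have : i • cl w = (k • ((1 - j) • cl r + j • cl w - cl s)) + cl s := by rw [← hk]; abel
      have h4 : (i - k * j) • cl w = i • cl w - (k * j) • cl w := by module
      rw [h4, this]
      module
    have h4 : i - k * j = 0 := by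
      by_contra hc
      apply hw
      have h5 : (i - k * j) • cl w ∈ W := by
        rw [h3]
        exact W.add_mem (W.smul_mem _ hr) (W.smul_mem _ hs)
      have := W.smul_mem (i - k * j)⁻¹ h5
      rwa [inv_smul_smul₀ hc] at this
    rw [h4, zero_smul] at h3
    obtain ⟨h5, h6⟩ := hf _ _ h3.symm
    have hk1 : k = 1 := by linear_combination -h6
    rw [hk1, one_mul] at h5
    have hj1 : j = 1 := by linear_combination -h5
    rw [hi, show i = 1 by rw [hk1, hj1] at h4; linear_combination h4, one_smul]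

/-- a subspace which contains all free Steinberg pairs -/
theorem exists_sub [Finite (Submodule K A)] (h : Cls cl) (hS : ∀ x y, St cl x y → wd x y ∈ R)
    (hfree : ∃ x y, St cl x y ∧ Fr K x y) :
    ∃ W : Submodule K A,
      (∀ X : Submodule K A, (∃ x y, St cl x y ∧ Fr K x y ∧ x ∈ X ∧ y ∈ X) → dl R W ≤ dl R X) ∧
      (∀ x y, St cl x y → Fr K x y → x ∈ W ∧ y ∈ W) ∧
      ∀ x y : Fˣ, (x : F) + y = 1 → cl x ∉ W → cl y = 0 ∨ cl y = cl x := by
  obtain ⟨W, ⟨x1, y1, ⟨r1, s1, h1, rfl, rfl⟩, hf1, hr1, hs1⟩, hd, hW⟩ :=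
    exists_W (R := R) hfree
  have hall : ∀ x y, St cl x y → Fr K x y → x ∈ W ∧ y ∈ W := by
    intro x y hxy hf
    by_contra hn
    obtain ⟨V, b, u, ⟨r, s, h2, rfl, rfl⟩, hf2, hWV, hbV, hG, hD⟩ :=
      exists_chain hS St.symm hW hxy hf hn
    refine noPlane h hWV (P := Submodule.span K {cl r, cl s}) ?_ ?_ h1 h2 hr1 hs1 hf1 hf2
      (Submodule.subset_span (by simp)) (Submodule.subset_span (by simp)) hbV
    · intro w hw hw0 q hq hn' y hy
      obtain ⟨g, e, rfl⟩ := Submodule.mem_span_pair.1 hq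
      exact hG w hw hw0 g e hn' y hy
    · intro z hz hzP
      obtain ⟨g, e, rfl⟩ := Submodule.mem_span_pair.1 hzP
      obtain ⟨rfl, rfl⟩ := hD g e hz
      module
  exact ⟨W, hd, hall, fun x y hxy hx => rigid_out h hS hW hall h1 hf1 hxy hx⟩

end Pool.Agent.X321.MR
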