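import Pool.Agent.X321.MR.Lin

set_option autoImplicit false

/-! Subspaces with small `dl` and planes which are not contained in them. -/

namespace Pool.Agent.X321.MR

open Module

variable {K A : Type} [Field K] [AddCommGroup A] [Module K A] [FiniteDimensional K A]
  {R : Submodule K (⋀[K]^2 A)} {S : A → A → Prop}

omit [FiniteDimensional K A] in
lemma lt_sup {X : Submodule K A} {h : A} (hh : h ∉ X) : X < X ⊔ Submodule.span K {h} := by
  refine lt_of_le_of_ne le_sup_left ?_
  intro e
  apply hh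
  rw [e]
  exact (le_sup_right : Submodule.span K {h} ≤ _) (Submodule.mem_span_singleton_self h)

/-- elements annihilated by elements of `W` lie in `W` -/
lemma claim1 {W : Submodule K A} (hW : ∀ X, W < X → dl R W + 1 ≤ dl R X) {c h : A}
    (hc : c ∈ W) (hc0 : c ≠ 0) (hR : wd c h ∈ R) : h ∈ W := by
  by_contra hh
  have h1 := dl_one hc hc0 hh hR
  have h2 := hW _ (lt_sup hh)
  omega

lemma exists_W [Finite (Submodule K A)] (h : ∃ x y, S x y ∧ Fr K x y) :
    ∃ W : Submodule K A, (∃ x y, S x y ∧ Fr K x y ∧ x ∈ W ∧ y ∈ W) ∧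
      (∀ X : Submodule K A, (∃ x y, S x y ∧ Fr K x y ∧ x ∈ X ∧ y ∈ X) → dl R W ≤ dl R X) ∧
      ∀ X, W < X → dl R W + 1 ≤ dl R X := by
  obtain ⟨x, y, hxy, hf⟩ := h
  let C : Set (Submodule K A) := {X | ∃ x y, S x y ∧ Fr K x y ∧ x ∈ X ∧ y ∈ X}
  have hPC : (⊤ : Submodule K A) ∈ C := ⟨x, y, hxy, hf, trivial, trivial⟩
  obtain ⟨W, hWC, hW⟩ := Set.exists_min_image C
    (fun X => ((finrank K A : ℤ) + 1) * dl R X - (finrank K X : ℤ)) (Set.toFinite _) ⟨_, hPC⟩
  refine ⟨W, hWC, ?_, ?_⟩
  · intro X hX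
    have h1 := hW X hX
    have h3 := Submodule.finrank_le W
    by_contra hc
    push Not at hc
    have h4 : ((finrank K A : ℤ) + 1) * (dl R X + 1) ≤ ((finrank K A : ℤ) + 1) * dl R W :=
      mul_le_mul_of_nonneg_left (by omega) (by positivity)
    rw [mul_add, mul_one] at h4
    omega
  · intro X hX
    have hXC : X ∈ C := by
      obtain ⟨x, y, h1, h2, h3, h4⟩ := hWC
      exact ⟨x, y, h1, h2, hX.le h3, hX.le h4⟩
    have h1 := hW X hXC
    have h2 := Submodule.finrank_lt_finrank_of_lt hX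
    by_contra hc
    push Not at hc
    have h4 : ((finrank K A : ℤ) + 1) * dl R X ≤ ((finrank K A : ℤ) + 1) * dl R W :=
      mul_le_mul_of_nonneg_left (by omega) (by positivity)
    omega

/-- the chain argument -/
lemma exists_chain [Finite (Submodule K A)] (hS : ∀ x y, S x y → wd x y ∈ R)
    (hsym : ∀ x y, S x y → S y x) {W : Submodule K A}
    (hW : ∀ X, W < X → dl R W + 1 ≤ dl R X) {x0 y0 : A} (h0 : S x0 y0) (hf0 : Fr K x0 y0)
    (hn : ¬ (x0 ∈ W ∧ y0 ∈ W)) :
    ∃ (V : Submodule K A) (b u : A), S b u ∧ Fr K b u ∧ W ≤ V ∧ b ∉ V ∧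
      (∀ w ∈ W, w ≠ 0 → ∀ g e : K, w + (g • b + e • u) ∉ V →
        ∀ y, S (w + (g • b + e • u)) y → y ∈ Submodule.span K {w + (g • b + e • u)}) ∧
      ∀ g e : K, g • b + e • u ∈ W → g = 0 ∧ e = 0 := by
  let C : Set (Submodule K A) := {X | W < X ∧ dl R X ≤ dl R W + 1 ∧
    ∃ b u c, S b u ∧ Fr K b u ∧ c ∈ X ∧ c ≠ 0 ∧ (∃ a e : K, c = a • b + e • u) ∧ b ∉ X}
  -- the set is not empty
  have hx0 : x0 ∉ W := fun h => hn ⟨h, claim1 hW h hf0.ne (hS _ _ h0)⟩
  have hC : (W ⊔ Submodule.span K {x0}) ∈ C := by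
    refine ⟨lt_sup hx0, dl_add1 W x0, y0, x0, x0, hsym _ _ h0, hf0.symm,
      (le_sup_right : Submodule.span K {x0} ≤ _) (Submodule.mem_span_singleton_self x0), hf0.ne,
      ⟨0, 1, by module⟩, ?_⟩
    intro hy
    rw [Submodule.mem_sup] at hy
    obtain ⟨w, hw, z, hz, hwz⟩ := hy
    obtain ⟨a, rfl⟩ := Submodule.mem_span_singleton.1 hz
    have hw' : w = (-a) • x0 + (1 : K) • y0 := by rw [← hwz]; module
    apply hx0
    refine claim1 hW hw ?_ (h := x0) ?_
    · rw [hw']
      intro e
      exact one_ne_zero (hf0 _ _ e).2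
    · have h1 : (wd w x0 : ⋀[K]^2 A) = (-1 : K) • wd x0 y0 := by
        have := wd_comb (-a) 1 1 0 x0 y0
        rw [← hw'] at this
        rw [show x0 = (1 : K) • x0 + (0 : K) • y0 by module, this]
        rw [show (1 : K) • x0 + (0 : K) • y0 = x0 by module]
        module
      rw [h1]
      exact R.smul_mem _ (hS _ _ h0)
  obtain ⟨V, hVC, hV⟩ := Set.exists_max_image C (fun X => finrank K X) (Set.toFinite _) ⟨_, hC⟩
  obtain ⟨hWV, hdV, b, u, c, hbu, hfr, hcV, hc0, ⟨a, e, hc⟩, hbV⟩ := hVC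
  have he : e ≠ 0 := by
    rintro rfl
    rw [zero_smul, add_zero] at hc
    have ha : a ≠ 0 := by
      rintro rfl
      rw [zero_smul] at hc
      exact hc0 hc
    apply hbV
    have h1 := V.smul_mem a⁻¹ hcV
    rwa [hc, inv_smul_smul₀ ha] at h1
  -- `c ∧ b` is a relation
  have hcb : wd c b ∈ R := by
    have h1 : (wd c b : ⋀[K]^2 A) = (-e) • wd b u := by
      have := wd_comb a e 1 0 b u
      rw [← hc] at this
      rw [show b = (1 : K) • b + (0 : K) • u by module, this]
      rw [show (1 : K) • b + (0 : K) • u = b by module]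
      module
    rw [h1]
    exact R.smul_mem _ (hS _ _ hbu)
  have hcW : c ∉ W := fun h => hbV (hWV.le (claim1 hW h hc0 hcb))
  -- the larger space
  set V' := V ⊔ Submodule.span K {b} with hV'
  have hVV' : V < V' := lt_sup hbV
  have hdV' : dl R V' ≤ dl R W + 1 := (dl_one hcV hc0 hbV hcb).trans hdV
  have hbV' : b ∈ V' :=
    (le_sup_right : Submodule.span K {b} ≤ _) (Submodule.mem_span_singleton_self b)
  have huV' : u ∈ V' := by
    have h1 : u = e⁻¹ • (c - a • b) := by
      rw [hc, add_sub_cancel_left, inv_smul_smul₀ he]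
    rw [h1]
    exact V'.smul_mem _ (V'.sub_mem (hVV'.le hcV) (V'.smul_mem _ hbV'))
  -- the larger space is closed
  have hclosed : ∀ w y, S w y → Fr K w y → w ∈ V' → y ∈ V' := by
    intro w y hwy hf hw
    by_contra hy
    have h1 : V' ∈ C := ⟨hWV.trans hVV', hdV', y, w, w, hsym _ _ hwy, hf.symm, hw, hf.ne,
      ⟨0, 1, by module⟩, hy⟩
    have h2 := hV V' h1
    have h3 := Submodule.finrank_lt_finrank_of_lt hVV'
    omega
  refine ⟨V, b, u, hbu, hfr, hWV.le, hbV, ?_, ?_⟩
  · intro w1 hw1 hw10 g e' hw y hy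
    set w := w1 + (g • b + e' • u) with hwdef
    by_contra hyn
    have hw0 : w ≠ 0 := fun h => hw (h ▸ V.zero_mem)
    have hf : Fr K w y := fr_of hw0 hyn
    have hwV' : w ∈ V' := V'.add_mem (hVV'.le (hWV.le hw1))
      (V'.add_mem (V'.smul_mem _ hbV') (V'.smul_mem _ huV'))
    have hyV' : y ∈ V' := hclosed w y hy hf hwV'
    rw [hV', Submodule.mem_sup] at hwV' hyV'
    obtain ⟨h, hh, z, hz, hhz⟩ := hwV'
    obtain ⟨l, rfl⟩ := Submodule.mem_span_singleton.1 hz
    obtain ⟨h', hh', z', hz', hhz'⟩ := hyV'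
    obtain ⟨l', rfl⟩ := Submodule.mem_span_singleton.1 hz'
    have hl : l ≠ 0 := by
      rintro rfl
      apply hw
      rw [← hhz, zero_smul, add_zero]
      exact hh
    set x := y - (l' * l⁻¹) • w with hx
    have hxV : x ∈ V := by
      have h1 : x = h' - (l' * l⁻¹) • h := by
        have h2 : (l' * l⁻¹) • (l • b) = l' • b := by
          rw [smul_smul, mul_assoc, inv_mul_cancel₀ hl, mul_one]
        rw [hx, ← hhz, ← hhz', smul_add, h2]
        abel
      rw [h1]
      exact V.sub_mem hh' (V.smul_mem _ hh)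
    have hx' : x = (-(l' * l⁻¹)) • w + (1 : K) • y := by rw [hx]; module
    have hx0 : x ≠ 0 := by
      rw [hx']
      intro e
      exact one_ne_zero (hf _ _ e).2
    have hxw : wd x w ∈ R := by
      have h1 : (wd x w : ⋀[K]^2 A) = (-1 : K) • wd w y := by
        have := wd_comb (-(l' * l⁻¹)) 1 1 0 w y
        rw [← hx'] at this
        rw [show (1 : K) • w + (0 : K) • y = w by module] at this
        rw [this]
        module
      rw [h1]
      exact R.smul_mem _ (hS _ _ hy)
    by_cases hfc : Fr K c x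
    · have h1 := dl_two hcV hxV hbV hh hl (w := w) (by rw [← hhz, add_comm]) hfc hcb hxw
      have h2 := hW _ (hWV.trans hVV')
      rw [← hV'] at h1
      omega
    · have hxc : x ∈ Submodule.span K {c} := by
        by_contra hxc
        exact hfc (fr_of hc0 hxc)
      obtain ⟨k, hk⟩ := Submodule.mem_span_singleton.1 hxc
      have hk0 : k ≠ 0 := by
        rintro rfl
        rw [zero_smul] at hk
        exact hx0 hk.symm
      have hcw : wd c w ∈ R := by
        have h1 : (wd c w : ⋀[K]^2 A) = k⁻¹ • wd x w := by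
          have := wd_comb k 0 0 1 c w
          rw [show k • c + (0 : K) • w = x by rw [← hk]; module,
            show (0 : K) • c + (1 : K) • w = w by module] at this
          rw [this, smul_smul]
          rw [show k⁻¹ * (k * 1 - 0 * 0) = 1 by field_simp; ring, one_smul]
        rw [h1]
        exact R.smul_mem _ hxw
      have hcq : wd c (g • b + e' • u) ∈ R := by
        rw [hc, wd_comb]
        exact R.smul_mem _ (hS _ _ hbu)
      have hcw1 : wd w1 c ∈ R := by
        rw [wd_swap]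
        have h1 := R.sub_mem hcw hcq
        rw [hwdef, wd_add_right, add_sub_cancel_right] at h1
        exact R.neg_mem h1
      exact hcW (claim1 hW hw1 hw10 hcw1)
  · intro g e' hz
    have hzb : wd (g • b + e' • u) b ∈ R := by
      have := wd_comb g e' 1 0 b u
      rw [show (1 : K) • b + (0 : K) • u = b by module] at this
      rw [this]
      exact R.smul_mem _ (hS _ _ hbu)
    by_contra hcon
    have hz0 : g • b + e' • u ≠ 0 := fun h => hcon (hfr _ _ h)
    exact hbV (hWV.le (claim1 hW hz hz0 hzb))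

end Pool.Agent.X321.MR
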