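import Mathlib

set_option autoImplicit false

/-! Bivectors in the exterior square; the number `dim X - dim (R ∩ Λ² X)`. -/

namespace Pool.Agent.X321.MR

open Module

variable {K A : Type} [Field K] [AddCommGroup A] [Module K A]

/-- the bivector `x ∧ y` -/
noncomputable def wd (x y : A) : ⋀[K]^2 A := exteriorPower.ιMulti K 2 ![x, y]

lemma wd_add_left (x x' y : A) : (wd (x + x') y : ⋀[K]^2 A) = wd x y + wd x' y := by
  have h1 := (exteriorPower.ιMulti K 2 (M := A)).map_update_add ![x, y] 0 x x'
  have h2 : ∀ z : A, Function.update ![x, y] 0 z = ![z, y] := by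
    intro z
    ext i
    fin_cases i <;> simp [Function.update]
  rw [h2, h2, h2] at h1
  exact h1

lemma wd_smul_left (a : K) (x y : A) : (wd (a • x) y : ⋀[K]^2 A) = a • wd x y := by
  have h1 := (exteriorPower.ιMulti K 2 (M := A)).map_update_smul ![x, y] 0 a x
  have h2 : ∀ z : A, Function.update ![x, y] 0 z = ![z, y] := by
    intro z
    ext i
    fin_cases i <;> simp [Function.update]
  rw [h2, h2] at h1
  exact h1

lemma wd_add_right (x y z : A) : (wd x (y + z) : ⋀[K]^2 A) = wd x y + wd x z := by
  have h1 := (exteriorPower.ιMulti K 2 (M := A)).map_update_add ![x, y] 1 y z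
  have h2 : ∀ z : A, Function.update ![x, y] 1 z = ![x, z] := by
    intro z
    ext i
    fin_cases i <;> simp [Function.update]
  rw [h2, h2, h2] at h1
  exact h1

lemma wd_smul_right (a : K) (x y : A) : (wd x (a • y) : ⋀[K]^2 A) = a • wd x y := by
  have h1 := (exteriorPower.ιMulti K 2 (M := A)).map_update_smul ![x, y] 1 a y
  have h2 : ∀ z : A, Function.update ![x, y] 1 z = ![x, z] := by
    intro z
    ext i
    fin_cases i <;> simp [Function.update]
  rw [h2, h2] at h1
  exact h1

lemma wd_self (x : A) : (wd x x : ⋀[K]^2 A) = 0 :=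
  (exteriorPower.ιMulti K 2 (M := A)).map_eq_zero_of_eq ![x, x] (i := 0) (j := 1) rfl
    (by decide)

lemma wd_swap (x y : A) : (wd y x : ⋀[K]^2 A) = -wd x y := by
  have h1 : (wd (x + y) (x + y) : ⋀[K]^2 A) = 0 := wd_self _
  rw [wd_add_left, wd_add_right, wd_add_right, wd_self, wd_self, zero_add, add_zero] at h1
  exact (neg_eq_of_add_eq_zero_right h1).symm

lemma wd_comb (a b c d : K) (x y : A) :
    (wd (a • x + b • y) (c • x + d • y) : ⋀[K]^2 A) = (a * d - b * c) • wd x y := by
  rw [wd_add_left, wd_add_right, wd_add_right, wd_smul_left, wd_smul_left, wd_smul_left,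
    wd_smul_left, wd_smul_right, wd_smul_right, wd_smul_right, wd_smul_right, wd_self, wd_self,
    wd_swap x y]
  module

/-- linear independence of two vectors -/
def Fr (K : Type) {A : Type} [Field K] [AddCommGroup A] [Module K A] (x y : A) : Prop :=
  ∀ a b : K, a • x + b • y = 0 → a = 0 ∧ b = 0

lemma Fr.symm {x y : A} (h : Fr K x y) : Fr K y x := fun a b hab =>
  (h b a (by rw [add_comm]; exact hab)).symm

lemma Fr.ne {x y : A} (h : Fr K x y) : x ≠ 0 := by
  rintro rfl
  exact one_ne_zero (h 1 0 (by simp)).1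

lemma Fr.notMem {x y : A} (h : Fr K x y) : y ∉ Submodule.span K {x} := by
  intro hy
  obtain ⟨a, rfl⟩ := Submodule.mem_span_singleton.1 hy
  have := (h a (-1) (by module)).2
  exact one_ne_zero (neg_eq_zero.1 this)

lemma fr_of {x y : A} (hx : x ≠ 0) (h : y ∉ Submodule.span K {x}) : Fr K x y := by
  intro a b hab
  have hb : b = 0 := by
    by_contra hb
    apply h
    rw [Submodule.mem_span_singleton]
    refine ⟨-(b⁻¹ * a), ?_⟩
    have h1 : y = b⁻¹ • (b • y) := (inv_smul_smul₀ hb y).symm
    have h2 : b • y = -(a • x) := by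
      rw [eq_neg_iff_add_eq_zero, add_comm]
      exact hab
    rw [h1, h2, smul_neg, smul_smul, neg_smul]
  refine ⟨?_, hb⟩
  rw [hb, zero_smul, add_zero, smul_eq_zero] at hab
  exact hab.resolve_right hx

lemma Fr.comb {x y : A} (h : Fr K x y) {a b c d : K} (hd : a * d - b * c ≠ 0) :
    Fr K (a • x + b • y) (c • x + d • y) := by
  intro e f hef
  have h1 : (e * a + f * c) • x + (e * b + f * d) • y = 0 := by
    rw [← hef]
    module
  obtain ⟨h2, h3⟩ := h _ _ h1
  constructor
  · have : e * (a * d - b * c) = 0 := by linear_combination d * h2 - c * h3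
    exact (mul_eq_zero.1 this).resolve_right hd
  · have : f * (a * d - b * c) = 0 := by linear_combination a * h3 - b * h2
    exact (mul_eq_zero.1 this).resolve_right hd

/-- the alternating map given by an alternating bilinear map -/
def alt2 {N : Type} [AddCommGroup N] [Module K N] (B : A →ₗ[K] A →ₗ[K] N)
    (hB : ∀ x, B x x = 0) : A [⋀^Fin 2]→ₗ[K] N where
  toFun v := B (v 0) (v 1)
  map_update_add' := by
    intro _ m i x y
    fin_cases i <;> simp [Function.update]
  map_update_smul' := by
    intro _ m i c x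
    fin_cases i <;> simp [Function.update]
  map_eq_zero_of_eq' := by
    intro v i j hv hij
    have h1 : v 0 = v 1 := by
      fin_cases i <;> fin_cases j <;> simp_all
    rw [h1]
    exact hB _

lemma alt2_apply {N : Type} [AddCommGroup N] [Module K N] (B : A →ₗ[K] A →ₗ[K] N)
    (hB : ∀ x, B x x = 0) (v : Fin 2 → A) : alt2 B hB v = B (v 0) (v 1) := rfl

/-- the contraction of bivectors with a linear form -/
noncomputable def ctB (f : Dual K A) : A →ₗ[K] A →ₗ[K] A :=
  LinearMap.mk₂ K (fun x y => f x • y - f y • x)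
    (by intro x x' y; simp only [map_add]; module)
    (by intro a x y; simp only [map_smul, smul_eq_mul]; module)
    (by intro x y y'; simp only [map_add]; module)
    (by intro a x y; simp only [map_smul, smul_eq_mul]; module)

/-- the contraction of bivectors with a linear form -/
noncomputable def ct (f : Dual K A) : ⋀[K]^2 A →ₗ[K] A :=
  exteriorPower.alternatingMapLinearEquiv (alt2 (ctB f) (by
    intro x
    change f x • x - f x • x = 0
    exact sub_self _))

lemma ct_wd (f : Dual K A) (x y : A) : ct f (wd x y) = f x • y - f y • x := by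
  rw [ct, wd, exteriorPower.alternatingMapLinearEquiv_apply_ιMulti, alt2_apply]
  rfl

/-- the bivectors of a subspace -/
def into (X : Submodule K A) : Submodule K (⋀[K]^2 A) :=
  Submodule.span K {t | ∃ x ∈ X, ∃ y ∈ X, t = wd x y}

lemma ct_into {X : Submodule K A} {t : ⋀[K]^2 A} (ht : t ∈ into X) (f : Dual K A) :
    ct f t ∈ X := by
  have h1 : into X ≤ X.comap (ct f) := by
    rw [into, Submodule.span_le]
    rintro _ ⟨x, hx, y, hy, rfl⟩
    rw [SetLike.mem_coe, Submodule.mem_comap, ct_wd]
    exact X.sub_mem (X.smul_mem _ hy) (X.smul_mem _ hx)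
  exact h1 ht

lemma into_mono {X Y : Submodule K A} (h : X ≤ Y) : into X ≤ into Y := by
  apply Submodule.span_mono
  rintro _ ⟨x, hx, y, hy, rfl⟩
  exact ⟨x, h hx, y, h hy, rfl⟩

lemma wd_mem {X : Submodule K A} {x y : A} (hx : x ∈ X) (hy : y ∈ X) : wd x y ∈ into X :=
  Submodule.subset_span ⟨x, hx, y, hy, rfl⟩

variable [FiniteDimensional K A] (R : Submodule K (⋀[K]^2 A))

/-- the number `dim X - dim (R ∩ Λ² X)` -/
noncomputable def dl (X : Submodule K A) : ℤ :=
  (finrank K X : ℤ) - (finrank K ↥(R ⊓ into X) : ℤ)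

variable {R}

lemma finrank_sup_span (X : Submodule K A) (h : A) :
    finrank K ↥(X ⊔ Submodule.span K {h}) ≤ finrank K X + 1 := by
  refine (Submodule.finrank_add_le_finrank_add_finrank _ _).trans ?_
  have := finrank_span_le_card (R := K) ({h} : Set A)
  simp at this
  omega

lemma dl_add1 (X : Submodule K A) (h : A) : dl R (X ⊔ Submodule.span K {h}) ≤ dl R X + 1 := by
  have h1 := finrank_sup_span X h
  have h2 : finrank K ↥(R ⊓ into X) ≤ finrank K ↥(R ⊓ into (X ⊔ Submodule.span K {h})) :=
    Submodule.finrank_mono (inf_le_inf_left _ (into_mono le_sup_left))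
  unfold dl
  omega

lemma exists_dual {v : A} (h : v ≠ 0) : ∃ f : Dual K A, f v ≠ 0 := by
  by_contra hc
  push Not at hc
  exact h ((forall_dual_apply_eq_zero_iff K v).1 hc)

lemma wd_notMem {X : Submodule K A} {c h : A} (hc : c ∈ X) (hc0 : c ≠ 0) (hh : h ∉ X) :
    (wd c h : ⋀[K]^2 A) ∉ into X := by
  intro h1
  obtain ⟨f, hf⟩ := exists_dual (K := K) hc0
  have h2 := ct_into h1 f
  rw [ct_wd] at h2
  apply hh
  have h3 := X.add_mem h2 (X.smul_mem (f h) hc)
  rw [sub_add_cancel] at h3
  have h4 := X.smul_mem (f c)⁻¹ h3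
  rwa [inv_smul_smul₀ hf] at h4

lemma dl_one {X : Submodule K A} {c h : A} (hc : c ∈ X) (hc0 : c ≠ 0) (hh : h ∉ X)
    (hR : wd c h ∈ R) : dl R (X ⊔ Submodule.span K {h}) ≤ dl R X := by
  have h1 := finrank_sup_span X h
  have hh' : h ∈ X ⊔ Submodule.span K {h} :=
    (le_sup_right : Submodule.span K {h} ≤ _) (Submodule.mem_span_singleton_self h)
  have h2 : finrank K ↥(R ⊓ into X) < finrank K ↥(R ⊓ into (X ⊔ Submodule.span K {h})) := by
    apply Submodule.finrank_lt_finrank_of_lt
    refine lt_of_le_of_ne (inf_le_inf_left _ (into_mono le_sup_left)) ?_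
    intro e
    have h3 : (wd c h : ⋀[K]^2 A) ∈ R ⊓ into (X ⊔ Submodule.span K {h}) :=
      ⟨hR, wd_mem ((le_sup_left : X ≤ _) hc) hh'⟩
    rw [← e] at h3
    exact wd_notMem hc hc0 hh h3.2
  unfold dl
  omega

lemma dl_two {X : Submodule K A} {c x g w h : A} {l : K} (hc : c ∈ X) (hx : x ∈ X) (hg : g ∉ X)
    (hh : h ∈ X) (hl : l ≠ 0) (hw : w = l • g + h) (hcx : Fr K c x)
    (hR : wd c g ∈ R) (hR' : wd x w ∈ R) : dl R (X ⊔ Submodule.span K {g}) + 1 ≤ dl R X := by
  have h1 := finrank_sup_span X g
  have hX : X ≤ X ⊔ Submodule.span K {g} := le_sup_left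
  have hg' : g ∈ X ⊔ Submodule.span K {g} :=
    (le_sup_right : Submodule.span K {g} ≤ _) (Submodule.mem_span_singleton_self g)
  have hw' : w ∈ X ⊔ Submodule.span K {g} := by
    rw [hw]
    exact Submodule.add_mem _ (Submodule.smul_mem _ _ hg') (hX hh)
  set Y : Submodule K (⋀[K]^2 A) := (R ⊓ into X) ⊔ Submodule.span K {wd c g} with hY
  have h2 : finrank K ↥(R ⊓ into X) < finrank K Y := by
    apply Submodule.finrank_lt_finrank_of_lt
    refine lt_of_le_of_ne le_sup_left ?_
    intro e
    have h3 : (wd c g : ⋀[K]^2 A) ∈ Y :=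
      (le_sup_right : Submodule.span K {wd c g} ≤ _) (Submodule.mem_span_singleton_self _)
    rw [← e] at h3
    exact wd_notMem hc hcx.ne hg h3.2
  have h4 : finrank K Y < finrank K ↥(R ⊓ into (X ⊔ Submodule.span K {g})) := by
    apply Submodule.finrank_lt_finrank_of_lt
    refine lt_of_le_of_ne ?_ ?_
    · refine sup_le (inf_le_inf_left _ (into_mono hX)) ?_
      rw [Submodule.span_singleton_le_iff_mem]
      exact ⟨hR, wd_mem (hX hc) hg'⟩
    · intro e
      have h3 : (wd x w : ⋀[K]^2 A) ∈ R ⊓ into (X ⊔ Submodule.span K {g}) :=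
        ⟨hR', wd_mem (hX hx) hw'⟩
      rw [← e, hY, Submodule.mem_sup] at h3
      obtain ⟨t, ht, s, hs, hts⟩ := h3
      obtain ⟨a, rfl⟩ := Submodule.mem_span_singleton.1 hs
      have h5 : ∀ f : Dual K A, f (l • x - a • c) = 0 := by
        intro f
        by_contra hf
        apply hg
        have h6 := congrArg (fun m => ct f m) hts
        simp only [map_add, map_smul, ct_wd] at h6
        have h7 : (f (l • x - a • c)) • g ∈ X := by
          have h8 : (f (l • x - a • c)) • g = ct f t - f x • h + f w • x - (a * f g) • c := by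
            have h9 : ct f t = f x • w - f w • x - a • (f c • g - f g • c) := by
              rw [← h6]
              abel
            rw [h9, hw]
            simp only [map_sub, map_smul, smul_eq_mul, map_add]
            module
          rw [h8]
          exact X.sub_mem (X.add_mem (X.sub_mem (ct_into ht.2 f) (X.smul_mem _ hh))
            (X.smul_mem _ hx)) (X.smul_mem _ hc)
        have h8 := X.smul_mem (f (l • x - a • c))⁻¹ h7
        rwa [inv_smul_smul₀ hf] at h8
      have h6 := (forall_dual_apply_eq_zero_iff K _).1 h5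
      have h7 := hcx (-a) l (by rw [← h6]; module)
      exact hl h7.2
  unfold dl
  omega

/-- a plane has `dl ≤ 1` -/
lemma dl_plane {x y : A} (hxy : Fr K x y) (hR : wd x y ∈ R) :
    dl R (Submodule.span K {x} ⊔ Submodule.span K {y}) ≤ 1 := by
  refine (dl_one (Submodule.mem_span_singleton_self x) hxy.ne hxy.notMem hR).trans ?_
  have := dl_add1 (R := R) (⊥ : Submodule K A) x
  rw [bot_sup_eq] at this
  refine this.trans ?_
  unfold dl
  rw [finrank_bot]
  omega

end Pool.Agent.X321.MR
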