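import Pool.Agent.X321.MR.Arith

set_option autoImplicit false

/-! Fields without free Steinberg pairs. -/

namespace Pool.Agent.X321.MR

open Module

section

variable {K A F : Type} [Field K] [AddCommGroup A] [Module K A] [Field F] {cl : Fˣ → A}

/-- the class of `1 - x` is `i` times the class of `x` -/
def Ix (cl : Fˣ → A) (x : Fˣ) (i : K) : Prop := ∃ x' : Fˣ, (x : F) + x' = 1 ∧ cl x' = i • cl x

lemma exists_ix (h : Cls cl) (hn : ∀ x y, St cl x y → ¬ Fr K x y) {x : Fˣ} (hx : cl x ≠ 0) :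
    ∃ i : K, Ix cl x i := by
  have hne : (1 : F) - x ≠ 0 := by
    intro e
    apply hx
    have : x = 1 := Units.ext (by rw [Units.val_one]; linear_combination -e)
    rw [this, h.one]
  have h1 : (x : F) + (Units.mk0 _ hne : Fˣ) = 1 := by
    rw [Units.val_mk0]
    ring
  have h2 : cl (Units.mk0 _ hne) ∈ Submodule.span K {cl x} := by
    by_contra hc
    exact hn _ _ ⟨x, _, h1, rfl, rfl⟩ (fr_of hx hc)
  obtain ⟨i, hi⟩ := Submodule.mem_span_singleton.1 h2
  exact ⟨i, _, h1, hi.symm⟩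

lemma ix_rel (h : Cls cl) (hn : ∀ x y, St cl x y → ¬ Fr K x y) {x y : Fˣ}
    (hf : Fr K (cl x) (cl y)) {i k m : K} (hi : Ix cl x i) (hk : Ix cl y k)
    (hm : Ix cl (y / x) m) : i * (m - k) + k * (1 - m) = 0 := by
  obtain ⟨x', hx, hi⟩ := hi
  obtain ⟨y', hy, hk⟩ := hk
  obtain ⟨z', hz, hm⟩ := hm
  have hx0 : (x : F) ≠ 0 := x.ne_zero
  have hy0 : (y' : F) ≠ 0 := y'.ne_zero
  have h1 : ((x' / y' : Fˣ) : F) + (x * z' / y' : Fˣ) = 1 := by
    rw [Units.val_div_eq_div_val, Units.val_div_eq_div_val, Units.val_mul]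
    rw [Units.val_div_eq_div_val] at hz
    field_simp at hz ⊢
    linear_combination hz + hx - hy
  by_contra hc
  refine hn _ _ ⟨_, _, h1, rfl, rfl⟩ ?_
  rw [h.div, h.div, h.mul, hi, hk, hm, h.div]
  have := hf.comb (a := i) (b := -k) (c := 1 - m) (d := m - k) (by
    intro e
    exact hc (by linear_combination e))
  rwa [show i • cl x + (-k) • cl y = i • cl x - k • cl y by module,
    show (1 - m) • cl x + (m - k) • cl y = cl x + m • (cl y - cl x) - k • cl y by module] at this

lemma fr_mul {x y : A} (hf : Fr K x y) (a : K) : Fr K x (a • x + y) := by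
  have := hf.comb (a := 1) (b := 0) (c := a) (d := 1) (by simp)
  rwa [show (1 : K) • x + (0 : K) • y = x by module,
    show a • x + (1 : K) • y = a • x + y by module] at this

lemma cl_pow (h : Cls cl) (x : Fˣ) (n : ℕ) : cl (x ^ n) = (n : K) • cl x := by
  induction n with
  | zero => rw [pow_zero, h.one, Nat.cast_zero, zero_smul]
  | succ n ih => rw [pow_succ, h.mul, ih, Nat.cast_succ, add_smul, one_smul]

end

variable {p : ℕ} [Fact p.Prime] {A F : Type} [AddCommGroup A] [Module (ZMod p) A] [Field F]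
  {cl : Fˣ → A}

/-- two independent elements cannot both be exceptional -/
lemma no_two (h : Cls cl) (hn : ∀ x y, St cl x y → ¬ Fr (ZMod p) x y) {x y : Fˣ}
    (hf : Fr (ZMod p) (cl x) (cl y)) {i l : ZMod p} (hi : Ix cl x i) (hl : Ix cl y l)
    (hi0 : i ≠ 0) (hi1 : i ≠ 1) (hl0 : l ≠ 0) (hl1 : l ≠ 1) : False := by
  have hp : p.Prime := Fact.out
  have hi1' : i - 1 ≠ 0 := sub_ne_zero.2 hi1
  have hl1' : l - 1 ≠ 0 := sub_ne_zero.2 hl1
  -- the products `y x ^ n`
  have key : ∀ n : ℕ, ∃ k : ZMod p, Ix cl (y * x ^ n) k ∧ k ≠ 0 ∧ k ≠ 1 ∧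
      k * ((l - 1) * (i - 1) ^ n) = (k - 1) * (l * i ^ n) := by
    intro n
    induction n with
    | zero => exact ⟨l, by rwa [pow_zero, mul_one], hl0, hl1, by ring⟩
    | succ n ih =>
      obtain ⟨m, hm, hm0, hm1, hm2⟩ := ih
      have hf' : Fr (ZMod p) (cl x) (cl (y * x ^ (n + 1))) := by
        rw [h.mul, cl_pow (K := ZMod p) h, add_comm]
        exact fr_mul hf _
      obtain ⟨k, hk⟩ := exists_ix h hn (x := y * x ^ (n + 1)) hf'.symm.ne
      have h1 := ix_rel h hn hf' hi hk (m := m) (by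
        rwa [pow_succ, ← mul_assoc, mul_div_cancel_right])
      -- `k (i + m - 1) = i m`
      have h2 : k * (i + m - 1) = i * m := by linear_combination -h1
      have h3 : (k - 1) * (i + m - 1) = (i - 1) * (m - 1) := by linear_combination h2
      have h4 : i + m - 1 ≠ 0 := by
        intro e
        rw [e, mul_zero] at h2
        exact mul_ne_zero hi0 hm0 h2.symm
      have h5 : k ≠ 0 := by
        rintro rfl
        rw [zero_mul] at h2
        exact mul_ne_zero hi0 hm0 h2.symm
      have h6 : k ≠ 1 := by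
        rintro rfl
        rw [sub_self, zero_mul] at h3
        exact mul_ne_zero hi1' (sub_ne_zero.2 hm1) h3.symm
      refine ⟨k, hk, h5, h6, ?_⟩
      have h7 : (i + m - 1) * (k * ((l - 1) * (i - 1) ^ (n + 1))) =
          (i + m - 1) * ((k - 1) * (l * i ^ (n + 1))) := by
        rw [pow_succ, pow_succ]
        linear_combination ((l - 1) * (i - 1) ^ n * (i - 1)) * h2 - (l * i ^ n * i) * h3 +
          (i * (i - 1)) * hm2
      exact mul_left_cancel₀ h4 h7
  obtain ⟨k, hk, hk0, hk1, hk2⟩ := key (p - 1)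
  rw [ZMod.pow_card_sub_one_eq_one hi0, ZMod.pow_card_sub_one_eq_one hi1'] at hk2
  have hkl : k = l := by linear_combination -hk2
  subst hkl
  -- the pair `y, y x ^ (p - 1)`
  have hpn : ((p - 1 : ℕ) : ZMod p) ≠ 0 := by
    rw [Nat.cast_sub hp.one_le, ZMod.natCast_self, Nat.cast_one, zero_sub]
    exact neg_ne_zero.2 one_ne_zero
  have hf' : Fr (ZMod p) (cl y) (cl (y * x ^ (p - 1))) := by
    rw [h.mul, cl_pow (K := ZMod p) h]
    have := hf.symm.comb (a := 1) (b := 0) (c := 1) (d := ((p - 1 : ℕ) : ZMod p)) (by simpa)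
    rwa [show (1 : ZMod p) • cl y + (0 : ZMod p) • cl x = cl y by module,
      show (1 : ZMod p) • cl y + ((p - 1 : ℕ) : ZMod p) • cl x =
        cl y + ((p - 1 : ℕ) : ZMod p) • cl x by module] at this
  have hx0 : cl (x ^ (p - 1)) ≠ 0 := by
    rw [cl_pow (K := ZMod p) h]
    exact smul_ne_zero hpn hf.ne
  obtain ⟨m, hm⟩ := exists_ix h hn hx0
  have h1 := ix_rel h hn hf' hl hk (m := m) (by rwa [mul_div_cancel_left])
  have h2 : k * (k - 1) = 0 := by linear_combination -h1
  exact mul_ne_zero hk0 hl1' h2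

/-- fields without free Steinberg pairs -/
theorem exists_sub_noFree [FiniteDimensional (ZMod p) A] (h : Cls cl)
    (hn : ∀ x y, St cl x y → ¬ Fr (ZMod p) x y) :
    ∃ W : Submodule (ZMod p) A, finrank (ZMod p) W ≤ 1 ∧
      ∀ x y : Fˣ, (x : F) + y = 1 → cl x ∉ W → cl y = 0 ∨ cl y = cl x := by
  by_cases hex : ∃ x : Fˣ, cl x ≠ 0 ∧ ∃ i : ZMod p, Ix cl x i ∧ i ≠ 0 ∧ i ≠ 1
  · obtain ⟨x, hx, i, hi, hi0, hi1⟩ := hex
    refine ⟨Submodule.span (ZMod p) {cl x}, ?_, ?_⟩
    · have := finrank_span_le_card (R := ZMod p) ({cl x} : Set A)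
      simpa using this
    · intro w y hwy hw
      have hf : Fr (ZMod p) (cl x) (cl w) := fr_of hx hw
      obtain ⟨l, y', hl, hl'⟩ := exists_ix h hn hf.symm.ne
      have hyy : y' = y := Units.ext (by linear_combination hl - hwy)
      subst hyy
      by_contra hc
      rw [not_or] at hc
      refine no_two h hn hf hi ⟨y', hl, hl'⟩ hi0 hi1 ?_ ?_
      · rintro rfl
        exact hc.1 (by rw [hl', zero_smul])
      · rintro rfl
        exact hc.2 (by rw [hl', one_smul])
  · refine ⟨⊥, ?_, ?_⟩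
    · rw [finrank_bot]
      omega
    · intro w y hwy hw
      rw [Submodule.mem_bot] at hw
      obtain ⟨l, y', hl, hl'⟩ := exists_ix h hn hw
      have hyy : y' = y := Units.ext (by linear_combination hl - hwy)
      subst hyy
      by_contra hc
      rw [not_or] at hc
      refine hex ⟨w, hw, l, ⟨y', hl, hl'⟩, ?_, ?_⟩
      · rintro rfl
        exact hc.1 (by rw [hl', zero_smul])
      · rintro rfl
        exact hc.2 (by rw [hl', one_smul])

end Pool.Agent.X321.MR
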