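import Pool.Agent.X321.MR.NoFree

set_option autoImplicit false

/-! The dimension of the space of relations. -/

namespace Pool.Agent.X321.MR

open Module TensorProduct

variable {K A F N : Type} [Field K] [AddCommGroup A] [Module K A] [Field F] {cl : Fˣ → A}

/-- the span of the Steinberg relations in the tensor square -/
def stT (K : Type) [Field K] [Module K A] (cl : Fˣ → A) : Submodule K (A ⊗[K] A) :=
  Submodule.span K {t | ∃ x y : Fˣ, (x : F) + y = 1 ∧ t = cl x ⊗ₜ cl y}

/-- the span of the Steinberg relations in the exterior square -/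
def stE (K : Type) [Field K] [Module K A] (cl : Fˣ → A) : Submodule K (⋀[K]^2 A) :=
  Submodule.span K {t | ∃ x y : Fˣ, (x : F) + y = 1 ∧ t = wd (cl x) (cl y)}

/-- `{x, x} = 0` modulo the Steinberg relations -/
lemma self_mem (h : Cls cl) (x : Fˣ) : cl x ⊗ₜ[K] cl x ∈ stT K cl := by
  by_cases hx : x = 1
  · rw [hx, h.one, TensorProduct.zero_tmul]
    exact Submodule.zero_mem _
  have hx1 : (1 : F) - x ≠ 0 := by
    intro e
    exact hx (Units.ext (by rw [Units.val_one]; linear_combination -e))
  set y : Fˣ := Units.mk0 _ hx1 with hy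
  have hyv : (y : F) = 1 - x := rfl
  have hx0 : (x : F) ≠ 0 := x.ne_zero
  have h1 : cl x ⊗ₜ[K] cl y ∈ stT K cl :=
    Submodule.subset_span ⟨x, y, by rw [hyv]; ring, rfl⟩
  have h2 : cl x⁻¹ ⊗ₜ[K] cl (-(y / x)) ∈ stT K cl :=
    Submodule.subset_span ⟨x⁻¹, -(y / x), by
      rw [Units.val_neg, Units.val_div_eq_div_val, Units.val_inv_eq_inv_val, hyv]
      field_simp
      ring, rfl⟩
  rw [h.neg', h.div, h.inv, TensorProduct.neg_tmul, TensorProduct.tmul_sub] at h2
  have h3 := Submodule.add_mem _ h1 h2
  have h4 : cl x ⊗ₜ[K] cl y + -(cl x ⊗ₜ[K] cl y - cl x ⊗ₜ[K] cl x) = cl x ⊗ₜ[K] cl x := by abel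
  rwa [h4] at h3

/-- the dimension of the space of bivectors -/
lemma finrank_into [FiniteDimensional K A] (X : Submodule K A) :
    finrank K (into X) = (finrank K X).choose 2 := by
  have h1 : into X = LinearMap.range (exteriorPower.map 2 X.subtype) := by
    apply le_antisymm
    · rw [into, Submodule.span_le]
      rintro _ ⟨x, hx, y, hy, rfl⟩
      refine ⟨exteriorPower.ιMulti K 2 ![⟨x, hx⟩, ⟨y, hy⟩], ?_⟩
      rw [exteriorPower.map_apply_ιMulti, wd]
      congr 1
      ext i
      fin_cases i <;> rfl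
    · rw [LinearMap.range_eq_map, ← exteriorPower.ιMulti_span, Submodule.map_span,
        Submodule.span_le]
      rintro _ ⟨_, ⟨v, rfl⟩, rfl⟩
      rw [exteriorPower.map_apply_ιMulti]
      refine Submodule.subset_span ⟨v 0, (v 0).2, v 1, (v 1).2, ?_⟩
      rw [wd]
      congr 1
      ext i
      fin_cases i <;> rfl
  rw [h1, LinearMap.finrank_range_of_inj
    (exteriorPower.map_injective_field (Submodule.subtype_injective X)), exteriorPower.finrank_eq]

/-- the span of the symbols `{x, y}` with `x, y ∈ X` -/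
def symb (cl : Fˣ → A) (X : Submodule K A) : Submodule K ((A ⊗[K] A) ⧸ stT K cl) :=
  Submodule.span K {z | ∃ x ∈ X, ∃ y ∈ X, z = (stT K cl).mkQ (x ⊗ₜ y)}

theorem finrank_rel [FiniteDimensional K A] (h : Cls cl) (hs : Function.Surjective cl)
    (X : Submodule K A) : finrank K ↥(stE K cl ⊓ into X) + finrank K (symb cl X) =
      (finrank K X).choose 2 := by
  let B : A →ₗ[K] A →ₗ[K] ((A ⊗[K] A) ⧸ stT K cl) :=
    (TensorProduct.mk K A A).compr₂ (stT K cl).mkQ
  have hB : ∀ x, B x x = 0 := by
    intro x
    obtain ⟨x, rfl⟩ := hs x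
    exact (Submodule.Quotient.mk_eq_zero _).2 (self_mem h x)
  have hBa : ∀ x y, B x y = (stT K cl).mkQ (x ⊗ₜ y) := fun _ _ => rfl
  let f := exteriorPower.alternatingMapLinearEquiv (alt2 B hB)
  have hf : ∀ x y : A, f (wd x y) = (stT K cl).mkQ (x ⊗ₜ y) := by
    intro x y
    rw [wd, exteriorPower.alternatingMapLinearEquiv_apply_ιMulti, alt2_apply, hBa]
    rfl
  -- the kernel of `f`
  have hker : LinearMap.ker f = stE K cl := by
    apply le_antisymm
    · let C : A →ₗ[K] A →ₗ[K] ((⋀[K]^2 A) ⧸ stE K cl) :=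
        LinearMap.mk₂ K (fun x y => (stE K cl).mkQ (wd x y))
          (by intro x x' y; rw [wd_add_left, map_add])
          (by intro a x y; rw [wd_smul_left, map_smul])
          (by intro x y y'; rw [wd_add_right, map_add])
          (by intro a x y; rw [wd_smul_right, map_smul])
      have hC : stT K cl ≤ LinearMap.ker (TensorProduct.lift C) := by
        rw [stT, Submodule.span_le]
        rintro _ ⟨x, y, hxy, rfl⟩
        rw [SetLike.mem_coe, LinearMap.mem_ker, TensorProduct.lift.tmul]
        exact (Submodule.Quotient.mk_eq_zero _).2 (Submodule.subset_span ⟨x, y, hxy, rfl⟩)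
      have hcomp : ((stT K cl).liftQ _ hC).comp f = (stE K cl).mkQ := by
        apply exteriorPower.linearMap_ext
        ext v
        have h3 : exteriorPower.ιMulti K 2 v = wd (v 0) (v 1) := by
          rw [wd]
          congr 1
          ext i
          fin_cases i <;> rfl
        change (stT K cl).liftQ _ hC (f (exteriorPower.ιMulti K 2 v)) =
          (stE K cl).mkQ (exteriorPower.ιMulti K 2 v)
        rw [h3, hf, Submodule.mkQ_apply, Submodule.liftQ_apply, TensorProduct.lift.tmul]
        rfl
      intro t ht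
      rw [LinearMap.mem_ker] at ht
      have h2 : (stE K cl).mkQ t = 0 := by
        rw [← hcomp, LinearMap.comp_apply, ht, map_zero]
      exact (Submodule.Quotient.mk_eq_zero _).1 h2
    · rw [stE, Submodule.span_le]
      rintro _ ⟨x, y, hxy, rfl⟩
      rw [SetLike.mem_coe, LinearMap.mem_ker, hf]
      exact (Submodule.Quotient.mk_eq_zero _).2 (Submodule.subset_span ⟨x, y, hxy, rfl⟩)
  -- the image of the bivectors of `X`
  have himg : (into X).map f = symb cl X := by
    rw [into, Submodule.map_span, symb]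
    congr 1
    ext t
    constructor
    · rintro ⟨_, ⟨x, hx, y, hy, rfl⟩, rfl⟩
      exact ⟨x, hx, y, hy, hf x y⟩
    · rintro ⟨x, hx, y, hy, rfl⟩
      exact ⟨_, ⟨x, hx, y, hy, rfl⟩, hf x y⟩
  let g := f.domRestrict (into X)
  have h4 := LinearMap.finrank_range_add_finrank_ker (K := K) (V := ↥(into X))
    (V₂ := (A ⊗[K] A) ⧸ stT K cl) g
  have h5 : LinearMap.range g = symb cl X := by
    rw [← himg]
    exact LinearMap.range_domRestrict _ _
  have h6 : finrank K (LinearMap.ker g) = finrank K ↥(stE K cl ⊓ into X) := by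
    have h7 : (LinearMap.ker g).map (into X).subtype = stE K cl ⊓ into X := by
      rw [← hker]
      ext t
      constructor
      · rintro ⟨⟨t, ht⟩, h8, rfl⟩
        exact ⟨h8, ht⟩
      · rintro ⟨h8, ht⟩
        exact ⟨⟨t, ht⟩, h8, rfl⟩
    rw [← h7]
    exact (Submodule.equivMapOfInjective (into X).subtype (Submodule.subtype_injective _)
      (LinearMap.ker g)).finrank_eq
  rw [h5, h6, finrank_into] at h4
  omega

/-- all symbols -/
lemma symb_top : symb cl (⊤ : Submodule K A) = ⊤ := by
  rw [eq_top_iff]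
  intro z _
  obtain ⟨t, rfl⟩ := Submodule.mkQ_surjective _ z
  induction t using TensorProduct.induction_on with
  | zero =>
    rw [map_zero]
    exact Submodule.zero_mem _
  | tmul x y => exact Submodule.subset_span ⟨x, trivial, y, trivial, rfl⟩
  | add x y hx hy =>
    rw [map_add]
    exact Submodule.add_mem _ (hx trivial) (hy trivial)

lemma two_le [FiniteDimensional K A] {x y : A} (h : Fr K x y) : 2 ≤ finrank K A := by
  have h1 : LinearIndependent K ![x, y] := LinearIndependent.pair_iff.2 h
  have := h1.fintype_card_le_finrank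
  rwa [Fintype.card_fin] at this

end Pool.Agent.X321.MR
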